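import Pool.Agent.Helper12_DDS.Pointed

/-!
# Pointed curves on double covers
-/

set_option autoImplicit false

noncomputable section

namespace Pool.Agent.DDS

open Polynomial

variable {K : Type} [Field K] {r : ℕ}

/-- evaluation of the coefficients at the base point, with values in the field of definition -/
def evL (x : Fin r ⊕ Fin 2 → AlgebraicClosure K) : MvPolynomial (Fin r) K →+* Fld K x :=
  (MvPolynomial.aeval (R := K) (fun i => (⟨x (Sum.inl i), mem_Fld x _⟩ : Fld K x))).toRingHom

lemma evL_coe (x : Fin r ⊕ Fin 2 → AlgebraicClosure K) (a : MvPolynomial (Fin r) K) :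
    algebraMap (Fld K x) (AlgebraicClosure K) (evL x a) =
      MvPolynomial.aeval (R := K) (fun i => x (Sum.inl i)) a := by
  have h := MvPolynomial.aeval_algebraMap_apply (AlgebraicClosure K)
    (fun i => (⟨x (Sum.inl i), mem_Fld x _⟩ : Fld K x)) a
  exact h.symm

/-- the polynomial `f (s, t)` in `t` over the field of definition -/
def FL (x : Fin r ⊕ Fin 2 → AlgebraicClosure K) (f : (MvPolynomial (Fin r) K)[X]) :
    (Fld K x)[X] :=
  f.map (evL x)

lemma aeval_FL (x : Fin r ⊕ Fin 2 → AlgebraicClosure K) (f : (MvPolynomial (Fin r) K)[X])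
    (t : AlgebraicClosure K) :
    Polynomial.aeval t (FL x f) =
      f.eval₂ (MvPolynomial.aeval (R := K) fun i => x (Sum.inl i)).toRingHom t := by
  rw [FL, aeval_def, eval₂_map]
  have h : (algebraMap (Fld K x) (AlgebraicClosure K)).comp (evL x) =
      (MvPolynomial.aeval (R := K) fun i => x (Sum.inl i)).toRingHom :=
    RingHom.ext fun a => evL_coe x a
  rw [h]

/-- A point of a double cover with `f (s, t0 + w) = y0 ^ 2 * G (w) ^ 2 * F (w)` has a pointed
curve. -/
theorem pointed_of_eq {I : Set (MvPolynomial (Fin r) K)} {f : (MvPolynomial (Fin r) K)[X]}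
    {x : Fin r ⊕ Fin 2 → AlgebraicClosure K} (hx : x ∈ DoubleCover K I f) {g : ℕ}
    (F G : (Fld K x)[X]) (hF : F.natDegree ≤ 2 * g + 2) (hF0 : F.coeff 0 = 1)
    (hG0 : G.coeff 0 = 1)
    (h : ∀ w : AlgebraicClosure K, Polynomial.aeval (x (Sum.inr 0) + w) (FL x f) =
      x (Sum.inr 1) ^ 2 * (Polynomial.aeval w G) ^ 2 * Polynomial.aeval w F) :
    PointedCurve K (DoubleCover K I f) g x := by
  refine ⟨F, Sum.elim (fun i => MvPolynomial.C ⟨x (Sum.inl i), mem_Fld x _⟩)
    ![MvPolynomial.C ⟨x (Sum.inr 0), mem_Fld x _⟩ + MvPolynomial.X 0,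
      MvPolynomial.C ⟨x (Sum.inr 1), mem_Fld x _⟩ *
        Polynomial.aeval (MvPolynomial.X 0 : MvPolynomial (Fin 2) (Fld K x)) G *
        MvPolynomial.X 1], 1,
    MvPolynomial.X (Sum.inr 0) - MvPolynomial.C ⟨x (Sum.inr 0), mem_Fld x _⟩, 1, hF, hF0, ?_, ?_,
    ?_, ?_⟩
  · simp
  · rintro (i | i)
    · simp
    · fin_cases i
      · simp
      · have e : MvPolynomial.aeval ![(0 : AlgebraicClosure K), 1]
            (Polynomial.aeval (MvPolynomial.X 0 : MvPolynomial (Fin 2) (Fld K x)) G) = 1 := by
          rw [← Polynomial.aeval_algHom_apply]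
          simp only [MvPolynomial.aeval_X, Matrix.cons_val_zero]
          rw [Polynomial.aeval_def, Polynomial.eval₂_at_zero, hG0, map_one]
        simp [e]
  · simp
  · intro w y hy _
    have e : MvPolynomial.aeval ![w, y]
        (Polynomial.aeval (MvPolynomial.X 0 : MvPolynomial (Fin 2) (Fld K x)) G) =
          Polynomial.aeval w G := by
      rw [← Polynomial.aeval_algHom_apply]
      simp
    constructor
    · constructor
      · have e2 : (fun i : Fin r => (fun j => MvPolynomial.aeval ![w, y]
          ((Sum.elim (fun i => MvPolynomial.C ⟨x (Sum.inl i), mem_Fld x _⟩)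
            ![MvPolynomial.C ⟨x (Sum.inr 0), mem_Fld x _⟩ + MvPolynomial.X 0,
              MvPolynomial.C ⟨x (Sum.inr 1), mem_Fld x _⟩ *
                Polynomial.aeval (MvPolynomial.X 0 : MvPolynomial (Fin 2) (Fld K x)) G *
                MvPolynomial.X 1] :
              Fin r ⊕ Fin 2 → MvPolynomial (Fin 2) (Fld K x)) j) /
              MvPolynomial.aeval ![w, y] (1 : MvPolynomial (Fin 2) (Fld K x))) (Sum.inl i)) =
            fun i => x (Sum.inl i) := by
          funext i
          simp
        rw [e2]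
        exact hx.1
      · have e3 := h w
        rw [aeval_FL, ← hy] at e3
        simp only [Sum.elim_inl, Sum.elim_inr, Matrix.cons_val_zero, Matrix.cons_val_one,
          map_one, div_one, map_mul, map_add, MvPolynomial.aeval_C, MvPolynomial.aeval_X, e]
        rw [mul_pow, mul_pow]
        exact e3.symm
    · simp

end Pool.Agent.DDS
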