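import Pool.Agent.Helper12_DDS.Cover

/-!
# Pointed curves on double covers, the three cases
-/

set_option autoImplicit false

noncomputable section

namespace Pool.Agent.DDS

open Polynomial

variable {K : Type} [Field K] {r : ℕ}

/-- the shifted polynomial divided by `y0 ^ 2` -/
def Fs (x : Fin r ⊕ Fin 2 → AlgebraicClosure K) (f : (MvPolynomial (Fin r) K)[X]) :
    (Fld K x)[X] :=
  C (((⟨x (Sum.inr 1), mem_Fld x _⟩ : Fld K x) ^ 2)⁻¹) *
    (FL x f).comp (X + C ⟨x (Sum.inr 0), mem_Fld x _⟩)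

lemma aeval_Fs (x : Fin r ⊕ Fin 2 → AlgebraicClosure K) (f : (MvPolynomial (Fin r) K)[X])
    (w : AlgebraicClosure K) : Polynomial.aeval w (Fs x f) =
      (x (Sum.inr 1) ^ 2)⁻¹ * Polynomial.aeval (x (Sum.inr 0) + w) (FL x f) := by
  rw [Fs, map_mul, aeval_C, aeval_comp, map_add, aeval_X, aeval_C]
  have e1 : algebraMap (Fld K x) (AlgebraicClosure K)
      (((⟨x (Sum.inr 1), mem_Fld x _⟩ : Fld K x) ^ 2)⁻¹) = (x (Sum.inr 1) ^ 2)⁻¹ := rfl
  have e2 : algebraMap (Fld K x) (AlgebraicClosure K) ⟨x (Sum.inr 0), mem_Fld x _⟩ =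
    x (Sum.inr 0) := rfl
  rw [e1, e2, add_comm w]

lemma Fs_coeff_zero {I : Set (MvPolynomial (Fin r) K)} {f : (MvPolynomial (Fin r) K)[X]}
    {x : Fin r ⊕ Fin 2 → AlgebraicClosure K} (hx : x ∈ DoubleCover K I f)
    (hy : x (Sum.inr 1) ≠ 0) : (Fs x f).coeff 0 = 1 := by
  have h := aeval_Fs x f 0
  rw [add_zero, aeval_FL, ← hx.2, inv_mul_cancel₀ (pow_ne_zero 2 hy), aeval_def,
    eval₂_at_zero] at h
  exact (algebraMap (Fld K x) (AlgebraicClosure K)).injective (by rw [h, map_one])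

theorem pointed_small {I : Set (MvPolynomial (Fin r) K)} {f : (MvPolynomial (Fin r) K)[X]}
    {x : Fin r ⊕ Fin 2 → AlgebraicClosure K} (hx : x ∈ DoubleCover K I f)
    (hy : x (Sum.inr 1) ≠ 0) {g : ℕ} (hf : f.natDegree ≤ 2 * g + 2) :
    PointedCurve K (DoubleCover K I f) g x := by
  refine pointed_of_eq hx (Fs x f) 1 ?_ (Fs_coeff_zero hx hy) (by simp) fun w => ?_
  · refine (natDegree_C_mul_le _ _).trans (natDegree_comp_le.trans ?_)
    rw [natDegree_X_add_C, mul_one]
    exact natDegree_map_le.trans hf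
  · rw [aeval_Fs, map_one, one_pow, mul_one, mul_inv_cancel_left₀ (pow_ne_zero 2 hy)]

theorem pointed_zero {I : Set (MvPolynomial (Fin r) K)} {f : (MvPolynomial (Fin r) K)[X]}
    {x : Fin r ⊕ Fin 2 → AlgebraicClosure K} (hx : x ∈ DoubleCover K I f)
    (h0 : ∀ u ∈ DoubleCover K I f, u (Sum.inr 1) = 0) :
    PointedCurve K (DoubleCover K I f) 0 x := by
  refine pointed_of_eq hx 1 1 (by simp) (by simp) (by simp) fun w => ?_
  rw [h0 x hx, aeval_FL]
  obtain ⟨y, hy⟩ := IsAlgClosed.exists_pow_nat_eq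
    (f.eval₂ (MvPolynomial.aeval (R := K) fun i => x (Sum.inl i)).toRingHom (x (Sum.inr 0) + w))
    two_pos
  have h1 : (Sum.elim (fun i => x (Sum.inl i)) ![x (Sum.inr 0) + w, y] :
      Fin r ⊕ Fin 2 → AlgebraicClosure K) ∈ DoubleCover K I f := ⟨hx.1, hy⟩
  have h2 := h0 _ h1
  have h3 : y = 0 := h2
  rw [← hy, h3]
  ring

/-- A polynomial over an algebraically closed field all of whose roots have even multiplicity is
a square. -/
lemma square_of_even {W : Type*} [Field W] [IsAlgClosed W] (F : W[X])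
    (h : ∀ ρ : W, Even (F.rootMultiplicity ρ)) : ∃ G : W[X], F = G ^ 2 := by
  classical
  by_cases hF : F = 0
  · exact ⟨0, by rw [hF]; ring⟩
  have hs : F.Splits := IsAlgClosed.splits F
  obtain ⟨c, hc⟩ := IsAlgClosed.exists_pow_nat_eq F.leadingCoeff two_pos
  have e1 := hs.eq_prod_roots
  have e2 : (F.roots.map fun a => X - C a).prod =
      ∏ a ∈ F.roots.toFinset, (X - C a) ^ (F.rootMultiplicity a) := by
    rw [Finset.prod_multiset_map_count]
    refine Finset.prod_congr rfl fun a _ => ?_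
    rw [count_roots]
  have e3 : ∏ a ∈ F.roots.toFinset, (X - C a) ^ (F.rootMultiplicity a) =
      (∏ a ∈ F.roots.toFinset, (X - C a) ^ (F.rootMultiplicity a / 2)) ^ 2 := by
    rw [← Finset.prod_pow]
    refine Finset.prod_congr rfl fun a _ => ?_
    rw [← pow_mul, Nat.div_mul_cancel (h a).two_dvd]
  refine ⟨C c * ∏ a ∈ F.roots.toFinset, (X - C a) ^ (F.rootMultiplicity a / 2), ?_⟩
  rw [mul_pow, ← e3, ← e2, ← C_pow, hc]
  exact e1

theorem pointed_square [CharZero K] {I : Set (MvPolynomial (Fin r) K)}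
    {f : (MvPolynomial (Fin r) K)[X]}
    {x : Fin r ⊕ Fin 2 → AlgebraicClosure K} (hx : x ∈ DoubleCover K I f)
    (hy : x (Sum.inr 1) ≠ 0)
    (h : ∀ ρ : AlgebraicClosure K,
      Even (((FL x f).map (algebraMap (Fld K x) (AlgebraicClosure K))).rootMultiplicity ρ)) :
    PointedCurve K (DoubleCover K I f) 0 x := by
  classical
  obtain ⟨G0, hG0⟩ := square_of_even _ h
  have hc0 := Fs_coeff_zero hx hy
  -- a square root of the shifted polynomial over the algebraic closure, with value one at zero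
  obtain ⟨G, hG, hG1⟩ : ∃ G : (AlgebraicClosure K)[X],
      (Fs x f).map (algebraMap (Fld K x) (AlgebraicClosure K)) = G ^ 2 ∧ G.coeff 0 = 1 := by
    set G1 : (AlgebraicClosure K)[X] :=
      C (x (Sum.inr 1))⁻¹ * G0.comp (X + C (x (Sum.inr 0))) with hG1
    have e1 : (Fs x f).map (algebraMap (Fld K x) (AlgebraicClosure K)) = G1 ^ 2 := by
      rw [Fs, Polynomial.map_mul, map_C, map_comp, hG0, Polynomial.map_add, map_X, map_C, hG1,
        mul_pow, pow_comp, ← C_pow, inv_pow]
      rfl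
    have e2 : G1.coeff 0 ^ 2 = 1 := by
      have := congrArg (fun p => coeff p 0) e1
      simp only [coeff_map, hc0, map_one, sq, mul_coeff_zero] at this
      rw [sq]
      exact this.symm
    rcases sq_eq_one_iff.1 e2 with h1 | h1
    · exact ⟨G1, e1, h1⟩
    · exact ⟨-G1, by rw [e1]; ring, by rw [coeff_neg, h1]; ring⟩
  obtain ⟨S, E, hS1, hS0, hSE⟩ := exists_trunc hc0 (G.natDegree + 1) (by omega)
  set L2 := algebraMap (Fld K x) (AlgebraicClosure K) with hL2
  have h1 : (S.map L2 - G) * (S.map L2 + G) = X ^ (G.natDegree + 1) * E.map L2 := by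
    have h2 := congrArg (Polynomial.map L2) hSE
    rw [Polynomial.map_sub, Polynomial.map_pow, hG, Polynomial.map_mul, Polynomial.map_pow,
      map_X] at h2
    linear_combination h2
  have h2 : ¬ X ∣ (S.map L2 + G) := by
    rw [X_dvd_iff, coeff_add, coeff_map, hS0, map_one, hG1]
    norm_num
  have h3 : X ^ (G.natDegree + 1) ∣ S.map L2 - G :=
    prime_X.pow_dvd_of_dvd_mul_right _ h2 ⟨_, h1⟩
  have h4 : S.map L2 - G = 0 := by
    by_contra hne
    have h5 := natDegree_le_of_dvd h3 hne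
    rw [natDegree_X_pow] at h5
    have h6 : (S.map L2 - G).natDegree ≤ G.natDegree := by
      refine (natDegree_sub_le _ _).trans (max_le ?_ le_rfl)
      exact natDegree_map_le.trans (by omega)
    omega
  have h5 : Fs x f = S ^ 2 := by
    apply Polynomial.map_injective L2 L2.injective
    rw [hG, Polynomial.map_pow, sub_eq_zero.1 h4]
  refine pointed_of_eq hx 1 S (by simp) (by simp) hS0 fun w => ?_
  have h6 := aeval_Fs x f w
  rw [h5, map_pow] at h6
  rw [h6, map_one, mul_one, mul_inv_cancel_left₀ (pow_ne_zero 2 hy)]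

end Pool.Agent.DDS
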