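import Pool.Agent.Helper12_DDS.Two

/-!
# Density degrees: the theorems
-/

set_option autoImplicit false

noncomputable section

namespace Pool.Agent.DDS

open Polynomial

variable {K : Type} [Field K] [NumberField K]

/-- Varieties through whose general point passes a pointed curve of genus at most `g`. -/
theorem swept {N : ℕ} {X : Set (Fin N → AlgebraicClosure K)} (hX : Irred K X) {g : ℕ}
    (P : MvPolynomial (Fin N) K) (hP : ∃ x ∈ X, MvPolynomial.aeval x P ≠ 0)
    (hg : ∀ x ∈ X, MvPolynomial.aeval x P ≠ 0 → PointedCurve K X g x) {d n : ℕ} (hn : g < n)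
    (hd : DenseDeg K X d) : DenseDeg K X (d * n) := by
  intro Q hQ
  have h1 : ∃ x ∈ X, MvPolynomial.aeval x (P * Q) ≠ 0 := by
    by_contra hcon
    push Not at hcon
    rcases hX.2 P Q hcon with h | h
    · obtain ⟨x, hx, hx2⟩ := hP
      exact hx2 (h x hx)
    · obtain ⟨x, hx, hx2⟩ := hQ
      exact hx2 (h x hx)
  obtain ⟨x, hx, hxd, hxQ⟩ := hd _ h1
  rw [map_mul] at hxQ
  obtain ⟨F, A, D, U, V, hF, hF0, hD, hA, hV, hU⟩ := hg x hx (left_ne_zero_of_mul hxQ)
  obtain ⟨w, y, hwy, hD2, hdeg, hQ2⟩ := pointed_step x F A D U V hF hF0 hD hA hV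
    (fun w y h h' => (hU w y h h').2) Q (right_ne_zero_of_mul hxQ) hn
  exact ⟨_, (hU w y hwy hD2).1, by rw [hdeg, hxd], hQ2⟩

variable {r : ℕ} {I : Set (MvPolynomial (Fin r) K)} {f : (MvPolynomial (Fin r) K)[X]}

/-- a general point of a double cover: either `y` vanishes identically, or it is nonzero at
suitable points of degree `d` -/
theorem exists_point (hX : Irred K (DoubleCover K I f)) {d : ℕ}
    (hd : DenseDeg K (DoubleCover K I f) d) (Q : MvPolynomial (Fin r ⊕ Fin 2) K)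
    (hQ : ∃ x ∈ DoubleCover K I f, MvPolynomial.aeval x Q ≠ 0) :
    ∃ x ∈ DoubleCover K I f, ptDeg K x = d ∧ MvPolynomial.aeval x Q ≠ 0 ∧
      ((∀ u ∈ DoubleCover K I f, u (Sum.inr 1) = 0) ∨ x (Sum.inr 1) ≠ 0) := by
  by_cases h0 : ∀ u ∈ DoubleCover K I f, u (Sum.inr 1) = 0
  · obtain ⟨x, hx, hxd, hxQ⟩ := hd Q hQ
    exact ⟨x, hx, hxd, hxQ, Or.inl h0⟩
  · have h1 : ∃ x ∈ DoubleCover K I f,
        MvPolynomial.aeval x (MvPolynomial.X (Sum.inr 1) * Q) ≠ 0 := by
      by_contra hcon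
      push Not at hcon
      rcases hX.2 _ Q hcon with h | h
      · apply h0
        intro u hu
        have := h u hu
        rwa [MvPolynomial.aeval_X] at this
      · obtain ⟨x, hx, hx2⟩ := hQ
        exact hx2 (h x hx)
    obtain ⟨x, hx, hxd, hxQ⟩ := hd _ h1
    rw [map_mul, MvPolynomial.aeval_X] at hxQ
    exact ⟨x, hx, hxd, right_ne_zero_of_mul hxQ, Or.inr (left_ne_zero_of_mul hxQ)⟩

theorem of_pointed {g : ℕ} {x : Fin r ⊕ Fin 2 → AlgebraicClosure K}
    (hg : PointedCurve K (DoubleCover K I f) g x) {n : ℕ} (hn : g < n)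
    (Q : MvPolynomial (Fin r ⊕ Fin 2) K) (hQ : MvPolynomial.aeval x Q ≠ 0) :
    ∃ z ∈ DoubleCover K I f, ptDeg K z = ptDeg K x * n ∧ MvPolynomial.aeval z Q ≠ 0 := by
  obtain ⟨F, A, D, U, V, hF, hF0, hD, hA, hV, hU⟩ := hg
  obtain ⟨w, y, hwy, hD2, hdeg, hQ2⟩ := pointed_step x F A D U V hF hF0 hD hA hV
    (fun w y h h' => (hU w y h h').2) Q hQ hn
  exact ⟨_, (hU w y hwy hD2).1, hdeg, hQ2⟩

/-- Double covers `y ^ 2 = f (s, t)` with `f` of degree at most `2 g + 2` in `t`. -/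
theorem cover_large (hX : Irred K (DoubleCover K I f)) {g : ℕ} (hf : f.natDegree ≤ 2 * g + 2)
    {d n : ℕ} (hn : g < n) (hd : DenseDeg K (DoubleCover K I f) d) :
    DenseDeg K (DoubleCover K I f) (d * n) := by
  intro Q hQ
  obtain ⟨x, hx, hxd, hxQ, h⟩ := exists_point hX hd Q hQ
  have hp : PointedCurve K (DoubleCover K I f) g x ∨ PointedCurve K (DoubleCover K I f) 0 x := by
    rcases h with h | h
    · exact Or.inr (pointed_zero hx h)
    · exact Or.inl (pointed_small hx h hf)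
  rcases hp with hp | hp
  · obtain ⟨z, hz, h1, h2⟩ := of_pointed hp hn Q hxQ
    exact ⟨z, hz, by rw [h1, hxd], h2⟩
  · obtain ⟨z, hz, h1, h2⟩ := of_pointed hp (by omega : 0 < n) Q hxQ
    exact ⟨z, hz, by rw [h1, hxd], h2⟩

/-- All double covers `y ^ 2 = f (s, t)`: doubling the degree. -/
theorem cover_two (hX : Irred K (DoubleCover K I f)) {d : ℕ}
    (hd : DenseDeg K (DoubleCover K I f) d) : DenseDeg K (DoubleCover K I f) (d * 2) := by
  intro Q hQ
  obtain ⟨x, hx, hxd, hxQ, h⟩ := exists_point hX hd Q hQ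
  have hp : PointedCurve K (DoubleCover K I f) 0 x ∨ ∃ ρ : AlgebraicClosure K,
      Odd (((FL x f).map (algebraMap (Fld K x) (AlgebraicClosure K))).rootMultiplicity ρ) := by
    rcases h with h | h
    · exact Or.inl (pointed_zero hx h)
    · by_cases h2 : ∃ ρ : AlgebraicClosure K,
        Odd (((FL x f).map (algebraMap (Fld K x) (AlgebraicClosure K))).rootMultiplicity ρ)
      · exact Or.inr h2
      · push Not at h2
        exact Or.inl (pointed_square hx h fun ρ => Nat.not_odd_iff_even.1 (h2 ρ))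
  rcases hp with hp | ⟨ρ, hρ⟩
  · obtain ⟨z, hz, h1, h2⟩ := of_pointed hp (by omega : 0 < 2) Q hxQ
    exact ⟨z, hz, by rw [h1, hxd], h2⟩
  · obtain ⟨z, hz, h1, h2⟩ := two_step hx hρ Q hxQ
    exact ⟨z, hz, by rw [h1, hxd], h2⟩

/-- Double covers `y ^ 2 = f (s, t)` with `f` of degree at most six in `t`. -/
theorem cover_six (hX : Irred K (DoubleCover K I f)) (hf : f.natDegree ≤ 6) {d n : ℕ}
    (hn : 0 < n) (hd : DenseDeg K (DoubleCover K I f) d) :
    DenseDeg K (DoubleCover K I f) (d * n) := by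
  rcases Nat.lt_or_ge 2 n with h | h
  · exact cover_large hX (g := 2) (by omega) h hd
  · interval_cases n
    · simpa using hd
    · exact cover_two hX hd

end Pool.Agent.DDS
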