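import Pool.Agent.Helper12_DDS.SchBir
import Pool.Agent.Helper12_DDS.Final

/-!
# Schemes birational to double covers
-/

set_option autoImplicit false

open AlgebraicGeometry CategoryTheory Polynomial

noncomputable section

namespace Pool.Agent.DDS

variable {k : Type} [Field k] {r : ℕ}

lemma zeros_coverIdeal (I : Set (MvPolynomial (Fin r) k)) (f : (MvPolynomial (Fin r) k)[X]) :
    Zeros k (coverIdeal I f : Set (MvPolynomial (Fin r ⊕ Fin 2) k)) = DoubleCover k I f := by
  have key : ∀ x : Fin r ⊕ Fin 2 → AlgebraicClosure k,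
      MvPolynomial.aeval x (f.eval₂ (MvPolynomial.rename (R := k) Sum.inl).toRingHom
        (MvPolynomial.X (Sum.inr 0))) =
      f.eval₂ (MvPolynomial.aeval (R := k) fun i => x (Sum.inl i)).toRingHom (x (Sum.inr 0)) := by
    intro x
    have h := Polynomial.hom_eval₂ f (MvPolynomial.rename (R := k) (Sum.inl : Fin r → _)).toRingHom
      (MvPolynomial.aeval (R := k) x).toRingHom (MvPolynomial.X (Sum.inr 0))
    have h2 : ((MvPolynomial.aeval (R := k) x).toRingHom.comp
        (MvPolynomial.rename (R := k) (Sum.inl : Fin r → Fin r ⊕ Fin 2)).toRingHom) =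
        (MvPolynomial.aeval (R := k) fun i => x (Sum.inl i)).toRingHom := by
      apply RingHom.ext
      intro P
      exact MvPolynomial.aeval_rename _ _ _
    rw [h2] at h
    have h3 : (MvPolynomial.aeval (R := k) x).toRingHom (MvPolynomial.X (Sum.inr 0)) =
      x (Sum.inr 0) := MvPolynomial.aeval_X _ _
    rw [h3] at h
    exact h
  ext x
  constructor
  · intro hx
    constructor
    · intro P hP
      have h := hx (MvPolynomial.rename Sum.inl P)
        (Ideal.subset_span (Or.inl ⟨P, hP, rfl⟩))
      rw [MvPolynomial.aeval_rename] at h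
      exact h
    · have h := hx _ (Ideal.subset_span (Or.inr rfl))
      rw [map_sub, map_pow, MvPolynomial.aeval_X, key] at h
      exact sub_eq_zero.1 h
  · rintro ⟨h1, h2⟩ P hP
    have hle : coverIdeal I f ≤ RingHom.ker (MvPolynomial.aeval (R := k) x) := by
      rw [coverIdeal, Ideal.span_le]
      rintro _ (⟨P, hP, rfl⟩ | rfl)
      · change MvPolynomial.aeval x _ = 0
        rw [MvPolynomial.aeval_rename]
        exact h1 P hP
      · change MvPolynomial.aeval x _ = 0
        rw [map_sub, map_pow, MvPolynomial.aeval_X, key, h2, sub_self]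
    exact hle hP

theorem irreducible_of_geometric {X : Scheme.{0}} (f : X ⟶ Spec (CommRingCat.of k))
    (h : IsIntegral (Limits.pullback f
      (Spec.map (CommRingCat.ofHom (algebraMap k (AlgebraicClosure k)))))) :
    IrreducibleSpace X := by
  let q : Spec (CommRingCat.of (AlgebraicClosure k)) ⟶ Spec (CommRingCat.of k) :=
    Spec.map (CommRingCat.ofHom (algebraMap k (AlgebraicClosure k)))
  let P : Scheme.{0} := Limits.pullback f q
  let p : P ⟶ X := Limits.pullback.fst f q
  have h0 : IsIntegral P := h
  have h1 : IrreducibleSpace P := inferInstance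
  have h2 : Surjective p := inferInstanceAs (Surjective (Limits.pullback.fst f q))
  have h3 : Function.Surjective p := h2.surj
  exact h3.irreducibleSpace p.continuous

theorem cover_scheme [NumberField k] {X : Scheme.{0}} [IrreducibleSpace X]
    (f : X ⟶ Spec (CommRingCat.of k)) [LocallyOfFiniteType f]
    (I : Set (MvPolynomial (Fin r) k)) (h : (MvPolynomial (Fin r) k)[X]) (hdeg : h.natDegree ≤ 6)
    (hJ : (coverIdeal I h).IsPrime) (hbir : Birational f (affStr (coverIdeal I h))) {d n : ℕ}
    (hn : 0 < n) (hd : DenseClosed f d) : DenseClosed f (n * d) := by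
  rw [denseClosed_birational f _ hJ hbir, zeros_coverIdeal] at hd ⊢
  have hirr := irred_zeros _ hJ
  rw [zeros_coverIdeal] at hirr
  rw [mul_comm]
  exact cover_six hirr hdeg hn hd

end Pool.Agent.DDS
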