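import Mathlib

/-!
# Points of given degree on affine varieties over number fields: definitions
-/

set_option autoImplicit false

noncomputable section

namespace Pool.Agent.DDS

open Polynomial

/-- The field of definition `K(x)` of a point with coordinates in the algebraic closure. -/
abbrev Fld (K : Type) [Field K] {T : Type} (x : T → AlgebraicClosure K) :
    IntermediateField K (AlgebraicClosure K) :=
  IntermediateField.adjoin K (Set.range x)

/-- The degree over `K` of a point with coordinates in the algebraic closure of `K`. -/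
def ptDeg (K : Type) [Field K] {T : Type} (x : T → AlgebraicClosure K) : ℕ :=
  Module.finrank K (Fld K x)

/-- The set of common zeros (over the algebraic closure) of a set of polynomials over `K`. -/
def Zeros (K : Type) [Field K] {T : Type} (I : Set (MvPolynomial T K)) :
    Set (T → AlgebraicClosure K) :=
  {x | ∀ P ∈ I, MvPolynomial.aeval x P = 0}

/-- The points of degree `d` of `X` are Zariski dense in `X`: every polynomial over `K` that does
not vanish identically on `X` is nonzero at some point of `X` of degree `d`. -/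
def DenseDeg (K : Type) [Field K] {T : Type} (X : Set (T → AlgebraicClosure K)) (d : ℕ) : Prop :=
  ∀ P : MvPolynomial T K, (∃ x ∈ X, MvPolynomial.aeval x P ≠ 0) →
    ∃ x ∈ X, ptDeg K x = d ∧ MvPolynomial.aeval x P ≠ 0

/-- `X` is nonempty and irreducible over `K`. -/
def Irred (K : Type) [Field K] {T : Type} (X : Set (T → AlgebraicClosure K)) : Prop :=
  X.Nonempty ∧ ∀ P Q : MvPolynomial T K,
    (∀ x ∈ X, MvPolynomial.aeval x (P * Q) = 0) →
    (∀ x ∈ X, MvPolynomial.aeval x P = 0) ∨ (∀ x ∈ X, MvPolynomial.aeval x Q = 0)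

/-- The double cover `y ^ 2 = f (s, t)` with `s` in the zero set of `I`; the coordinates are
`s = x (inl _)`, `t = x (inr 0)`, `y = x (inr 1)`. -/
def DoubleCover (K : Type) [Field K] {r : ℕ} (I : Set (MvPolynomial (Fin r) K))
    (f : (MvPolynomial (Fin r) K)[X]) : Set (Fin r ⊕ Fin 2 → AlgebraicClosure K) :=
  {x | (fun i => x (Sum.inl i)) ∈ Zeros K I ∧
    x (Sum.inr 1) ^ 2 =
      f.eval₂ (MvPolynomial.aeval (R := K) fun i => x (Sum.inl i)).toRingHom (x (Sum.inr 0))}

/-- Through the point `x` of `X` passes a curve of genus at most `g`, defined over `K(x)`, on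
which `x` is a smooth rational point that is not a Weierstrass point: a map
`(w, y) ↦ A (w, y) / D (w, y)` from the curve `y ^ 2 = F (w)`, `deg F ≤ 2 g + 2`, `F (0) = 1`, to
`X`, taking `(0, 1)` to `x`, together with a rational function `U / V`, regular at `x`, which gives
back the coordinate `w`. -/
def PointedCurve (K : Type) [Field K] {T : Type} (X : Set (T → AlgebraicClosure K)) (g : ℕ)
    (x : T → AlgebraicClosure K) : Prop :=
  ∃ (F : (Fld K x)[X]) (A : T → MvPolynomial (Fin 2) (Fld K x)) (D : MvPolynomial (Fin 2) (Fld K x))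
    (U V : MvPolynomial T (Fld K x)),
    F.natDegree ≤ 2 * g + 2 ∧ F.coeff 0 = 1 ∧
    MvPolynomial.aeval ![(0 : AlgebraicClosure K), 1] D ≠ 0 ∧
    (∀ j, MvPolynomial.aeval ![(0 : AlgebraicClosure K), 1] (A j) =
      x j * MvPolynomial.aeval ![(0 : AlgebraicClosure K), 1] D) ∧
    MvPolynomial.aeval x V ≠ 0 ∧
    ∀ w y : AlgebraicClosure K, y ^ 2 = Polynomial.aeval w F → MvPolynomial.aeval ![w, y] D ≠ 0 →
      (fun j => MvPolynomial.aeval ![w, y] (A j) / MvPolynomial.aeval ![w, y] D) ∈ X ∧
      MvPolynomial.aeval
          (fun j => MvPolynomial.aeval ![w, y] (A j) / MvPolynomial.aeval ![w, y] D) U =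
        w * MvPolynomial.aeval
          (fun j => MvPolynomial.aeval ![w, y] (A j) / MvPolynomial.aeval ![w, y] D) V

end Pool.Agent.DDS
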