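import Mathlib

/-!
# The norm argument
-/

set_option autoImplicit false

noncomputable section

namespace Pool.Agent.DDS

open Polynomial

theorem dvd_natDegree {K W : Type*} [Field K] [Field W] [IsAlgClosed W] [Algebra K W] {p : ℕ}
    [Fact p.Prime] (ι : W →+* PadicAlgCl p)
    (hι : ∀ a : K, ∃ b : ℚ_[p], ι (algebraMap K W a) = algebraMap ℚ_[p] (PadicAlgCl p) b)
    {q : K[X]} (hq : q.Monic) {n m : ℕ} (hmn : Nat.Coprime m n)
    (hr : ∀ r : W, (q.map (algebraMap K W)).IsRoot r → (p : ℝ) ^ m * ‖ι r‖ ^ n = 1) :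
    n ∣ q.natDegree := by
  set q' := q.map (algebraMap K W) with hq'
  have hp1 : (1 : ℝ) < p := by exact_mod_cast (Fact.out : p.Prime).one_lt
  have hp0 : (0 : ℝ) < p := by linarith
  have hspl : q'.Splits := IsAlgClosed.splits q'
  have hmon : q'.Monic := hq.map _
  have hcard : q'.roots.card = q.natDegree := by
    rw [← hspl.natDegree_eq_card_roots, hq', natDegree_map]
  have hprod : ∀ s : Multiset W, (∀ r ∈ s, (p : ℝ) ^ m * ‖ι r‖ ^ n = 1) →
      (p : ℝ) ^ (m * s.card) * ‖ι s.prod‖ ^ n = 1 := by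
    intro s
    induction s using Multiset.induction with
    | empty => intro _; simp
    | cons a s ih =>
      intro h
      have h1 := h a (Multiset.mem_cons_self a s)
      have h2 := ih fun r hr => h r (Multiset.mem_cons_of_mem hr)
      rw [Multiset.card_cons, Multiset.prod_cons, map_mul, norm_mul, mul_pow, mul_add, mul_one,
        pow_add]
      calc (p : ℝ) ^ (m * s.card) * (p : ℝ) ^ m * (‖ι a‖ ^ n * ‖ι s.prod‖ ^ n)
          = ((p : ℝ) ^ m * ‖ι a‖ ^ n) * ((p : ℝ) ^ (m * s.card) * ‖ι s.prod‖ ^ n) := by ring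
        _ = 1 := by rw [h1, h2, one_mul]
  have h1 := hprod q'.roots fun r hrr => hr r (isRoot_of_mem_roots hrr)
  have h2 : ‖ι (algebraMap K W (q.coeff 0))‖ = ‖ι q'.roots.prod‖ := by
    have := hspl.coeff_zero_eq_prod_roots_of_monic hmon
    rw [hq', coeff_map] at this
    rw [this, map_mul, norm_mul, map_pow, map_neg, map_one, norm_pow, norm_neg, norm_one, one_pow,
      one_mul]
  rw [← h2, hcard] at h1
  obtain ⟨b, hb⟩ := hι (q.coeff 0)
  rw [hb] at h1
  have h3 : ‖(algebraMap ℚ_[p] (PadicAlgCl p)) b‖ = ‖b‖ := PadicAlgCl.norm_extends p b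
  rw [h3] at h1
  by_cases hn : n = 0
  · subst hn
    rw [pow_zero, mul_one] at h1
    rw [Nat.coprime_zero_right] at hmn
    subst hmn
    rw [one_mul] at h1
    have h4 : q.natDegree = 0 := by
      by_contra hne
      have := one_lt_pow₀ hp1 hne
      linarith
    rw [h4]
  have hb0 : b ≠ 0 := by
    intro h
    rw [h, norm_zero, zero_pow hn, mul_zero] at h1
    exact zero_ne_one h1
  rw [Padic.norm_eq_zpow_neg_valuation hb0] at h1
  have h4 : (p : ℝ) ^ ((m * q.natDegree : ℕ) - b.valuation * n : ℤ) = 1 := by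
    rw [← h1, zpow_sub₀ hp0.ne', zpow_natCast, zpow_neg, inv_pow, zpow_mul, zpow_natCast]
    rw [div_eq_mul_inv]
  have h5 : ((m * q.natDegree : ℕ) : ℤ) - b.valuation * n = 0 := by
    by_contra hne
    exact hne ((zpow_eq_one_iff_right₀ hp0.le hp1.ne').1 h4)
  have h6 : (n : ℤ) ∣ ((m * q.natDegree : ℕ) : ℤ) := ⟨b.valuation, by linarith⟩
  have h7 : n ∣ m * q.natDegree := Int.natCast_dvd_natCast.1 h6
  exact (Nat.Coprime.dvd_of_dvd_mul_left hmn.symm h7)

end Pool.Agent.DDS
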