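import Pool.Agent.Helper12_DDS.Near
import Pool.Agent.Helper12_DDS.Deg

/-!
# The degree of the new points
-/

set_option autoImplicit false

noncomputable section

namespace Pool.Agent.DDS

open Polynomial

lemma aeval_mem' {K W : Type*} [Field K] [Field W] [Algebra K W] (M : IntermediateField K W)
    {S : Type*} {v : S → W} (hv : ∀ i, v i ∈ M) (B : MvPolynomial S K) :
    MvPolynomial.aeval v B ∈ M := by
  have h := MvPolynomial.aeval_algebraMap_apply W (fun i => (⟨v i, hv i⟩ : M)) B
  have h2 : (algebraMap M W) ∘ (fun i => (⟨v i, hv i⟩ : M)) = v := rfl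
  rw [h2] at h
  rw [h]
  exact (MvPolynomial.aeval (fun i => (⟨v i, hv i⟩ : M)) B).2

lemma aeval_mem'' {K W : Type*} [Field K] [Field W] [Algebra K W] (M : IntermediateField K W)
    {w : W} (hw : w ∈ M) (B : K[X]) : Polynomial.aeval w B ∈ M := by
  have h := Polynomial.aeval_algebraMap_apply W (⟨w, hw⟩ : M) B
  have h2 : (algebraMap M W) (⟨w, hw⟩ : M) = w := rfl
  rw [h2] at h
  rw [h]
  exact (Polynomial.aeval (⟨w, hw⟩ : M) B).2

variable {K : Type} [Field K] {T : Type}

theorem finrank_eq [CharZero K] (x : T → AlgebraicClosure K) {n m : ℕ} (hn : 1 ≤ n) (hmn : Nat.Coprime m n)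
    {p : ℕ} [Fact p.Prime] (ι : AlgebraicClosure K →+* PadicAlgCl p)
    (hι : ∀ a ∈ Fld K x, ∃ b : ℚ_[p], ι a = algebraMap ℚ_[p] (PadicAlgCl p) b)
    {w : AlgebraicClosure K}
    (hw : ∀ s : AlgebraicClosure K ≃ₐ[K] AlgebraicClosure K, (p : ℝ) ^ m * ‖ι (s w)‖ ^ n = 1)
    {q : (Fld K x)[X]} (hq0 : q ≠ 0) (hqn : q.natDegree ≤ n) (hq : Polynomial.aeval w q = 0) :
    Module.finrank (Fld K x) (IntermediateField.adjoin (Fld K x) {w}) = n := by
  have hint : IsIntegral (Fld K x) w := Algebra.IsIntegral.isIntegral w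
  rw [IntermediateField.adjoin.finrank hint]
  have h1 : n ∣ (minpoly (Fld K x) w).natDegree := by
    refine dvd_natDegree (K := Fld K x) ι (fun a => hι a a.2) (minpoly.monic hint) hmn (fun r hr => ?_)
    have h2 : IsConjRoot (Fld K x) w r := by
      rw [isConjRoot_iff_aeval_eq_zero hint]
      rw [IsRoot, eval_map] at hr
      exact hr
    obtain ⟨s, hs⟩ := isConjRoot_iff_exists_algEquiv.1 h2.symm
    rw [← hs]
    exact hw (AlgEquiv.restrictScalars K s)
  have h3 : (minpoly (Fld K x) w).natDegree ≤ n :=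
    (natDegree_le_of_dvd (minpoly.dvd _ _ hq) hq0).trans hqn
  have h4 : 0 < (minpoly (Fld K x) w).natDegree := minpoly.natDegree_pos hint
  exact le_antisymm h3 (Nat.le_of_dvd h4 h1)

/-- The field of definition of the new point. -/
theorem fld_eq [CharZero K] (x z : T → AlgebraicClosure K) {w : AlgebraicClosure K}
    (hz : ∀ j, z j ∈ IntermediateField.adjoin (Fld K x) {w})
    (hfix : ∀ s : AlgebraicClosure K ≃ₐ[K] AlgebraicClosure K, (∀ j, s (z j) = z j) →
      ∀ j, s (x j) = x j)
    (hw : ∀ M : IntermediateField (Fld K x) (AlgebraicClosure K), (∀ j, z j ∈ M) → w ∈ M) :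
    Fld K z = (IntermediateField.adjoin (Fld K x) {w}).restrictScalars K := by
  apply le_antisymm
  · rw [IntermediateField.adjoin_le_iff]
    rintro _ ⟨j, rfl⟩
    exact hz j
  · have h1 : Fld K x ≤ Fld K z := by
      rw [IntermediateField.adjoin_le_iff]
      rintro _ ⟨j, rfl⟩
      rw [← InfiniteGalois.fixedField_fixingSubgroup (Fld K z)]
      simp only [SetLike.mem_coe]
      rw [IntermediateField.mem_fixedField_iff]
      intro s hs
      refine hfix s (fun i => ?_) j
      exact (IntermediateField.mem_fixingSubgroup_iff _ s).1 hs _ (mem_Fld z i)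
    have h2 : w ∈ IntermediateField.extendScalars h1 := by
      refine hw _ fun j => ?_
      rw [IntermediateField.mem_extendScalars]
      exact mem_Fld z j
    have h3 : IntermediateField.adjoin (Fld K x) {w} ≤ IntermediateField.extendScalars h1 := by
      rw [IntermediateField.adjoin_le_iff]
      rintro _ rfl
      exact h2
    intro a ha
    exact (IntermediateField.mem_extendScalars h1).1 (h3 ha)

theorem ptDeg_eq (x z : T → AlgebraicClosure K) {w : AlgebraicClosure K} {n : ℕ}
    (h : Fld K z = (IntermediateField.adjoin (Fld K x) {w}).restrictScalars K)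
    (hn : Module.finrank (Fld K x) (IntermediateField.adjoin (Fld K x) {w}) = n) :
    ptDeg K z = ptDeg K x * n := by
  have h1 := Module.finrank_mul_finrank K (Fld K x) (IntermediateField.adjoin (Fld K x) {w})
  rw [hn] at h1
  rw [ptDeg, ptDeg, h1, h]
  rfl

end Pool.Agent.DDS
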