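import Mathlib

/-!
# Embeddings of number fields into `ℚ_p`
-/

set_option autoImplicit false

noncomputable section

namespace Pool.Agent.DDS

open Polynomial

/-- Schur: a nonconstant integer polynomial has a value divisible by a large prime outside of the
divisors of `D` -/
theorem schur (F : ℤ[X]) (hF : 0 < F.natDegree) (D : ℤ) (hD : D ≠ 0) (p0 : ℕ) :
    ∃ p : ℕ, p.Prime ∧ p0 ≤ p ∧ ¬ (p : ℤ) ∣ D ∧ ∃ m : ℤ, (p : ℤ) ∣ F.eval m := by
  classical
  set P : ℕ := D.natAbs * p0.factorial with hP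
  have hP0 : 0 < P := Nat.mul_pos (Int.natAbs_pos.2 hD) (Nat.factorial_pos _)
  have key : ∀ p : ℕ, p.Prime → ¬ p ∣ P → p0 ≤ p ∧ ¬ (p : ℤ) ∣ D := by
    intro p hp hpP
    constructor
    · by_contra hlt
      push Not at hlt
      exact hpP ((hp.dvd_factorial.2 hlt.le).mul_left _)
    · intro h
      exact hpP ((Int.natCast_dvd.1 h).mul_right _)
  by_cases h0 : F.eval 0 = 0
  · obtain ⟨p, hp1, hp2⟩ := Nat.exists_infinite_primes (P + 1)
    have h := key p hp2 (fun h => by have := Nat.le_of_dvd hP0 h; omega)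
    exact ⟨p, hp2, h.1, h.2, 0, by rw [h0]; exact dvd_zero _⟩
  · set c := F.eval 0 with hc
    -- values at multiples of `c * P`
    have hval : ∀ t : ℤ, ∃ k : ℤ, F.eval (c * P * t) = c * (1 + P * k) := by
      intro t
      have h1 : (c * P * t - 0) ∣ F.eval (c * P * t) - F.eval 0 := Polynomial.sub_dvd_eval_sub _ _ _
      obtain ⟨k, hk⟩ := h1
      refine ⟨t * k, ?_⟩
      rw [← hc] at hk
      linear_combination hk
    -- a value different from `± c`
    have hfin : ∃ t : ℤ, F.eval (c * P * t) ≠ c ∧ F.eval (c * P * t) ≠ -c := by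
      by_contra hcon
      push Not at hcon
      have hall : ∀ t : ℤ, ((F - C c) * (F + C c)).eval (c * P * t) = 0 := by
        intro t
        rw [eval_mul, eval_sub, eval_add, eval_C]
        by_cases ht : F.eval (c * P * t) = c
        · rw [ht]; ring
        · rw [hcon t ht]; ring
      have hz : (F - C c) * (F + C c) = 0 := by
        refine Polynomial.eq_zero_of_infinite_isRoot _ ?_
        refine Set.Infinite.mono (s := Set.range fun t : ℤ => c * P * t) ?_ ?_
        · rintro _ ⟨t, rfl⟩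
          exact hall t
        · refine Set.infinite_range_of_injective ?_
          intro a b hab
          have h1 : c * (P : ℤ) ≠ 0 := mul_ne_zero h0 (by exact_mod_cast hP0.ne')
          exact mul_left_cancel₀ h1 hab
      rcases mul_eq_zero.1 hz with h | h
      · have : F.natDegree = 0 := by
          rw [sub_eq_zero.1 h]; exact natDegree_C _
        omega
      · have : F.natDegree = 0 := by
          rw [add_eq_zero_iff_eq_neg.1 h, ← C_neg]; exact natDegree_C _
        omega
    obtain ⟨t, ht1, ht2⟩ := hfin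
    obtain ⟨k, hk⟩ := hval t
    have hne : (1 + P * k).natAbs ≠ 1 := by
      intro h
      rcases Int.natAbs_eq (1 + P * k) with h1 | h1
      · rw [h] at h1
        apply ht1
        rw [hk, h1]; simp
      · rw [h] at h1
        apply ht2
        rw [hk, h1]; simp
    obtain ⟨p, hp, hpd⟩ := Nat.exists_prime_and_dvd hne
    have hpd' : (p : ℤ) ∣ 1 + P * k := Int.natCast_dvd.2 hpd
    have hpP : ¬ p ∣ P := by
      intro h
      have h1 : (p : ℤ) ∣ (P : ℤ) * k := (Int.natCast_dvd_natCast.2 h).mul_right _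
      have h2 : (p : ℤ) ∣ 1 := (dvd_add_left h1).1 hpd'
      have h3 := Int.natCast_dvd_natCast.1 (by simpa using h2 : (p : ℤ) ∣ ((1 : ℕ) : ℤ))
      exact hp.one_lt.ne' (Nat.dvd_one.1 h3)
    have h := key p hp hpP
    exact ⟨p, hp, h.1, h.2, c * P * t, by rw [hk]; exact hpd'.mul_left _⟩

theorem clear (g : ℚ[X]) :
    ∃ b : ℤ, b ≠ 0 ∧ ∃ G : ℤ[X], G.map (algebraMap ℤ ℚ) = C (b : ℚ) * g := by
  obtain ⟨b, hb, h⟩ := IsLocalization.integerNormalization_spec (nonZeroDivisors ℤ) g
  refine ⟨b, nonZeroDivisors.ne_zero hb, _, h.trans ?_⟩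
  rw [zsmul_eq_mul]
  simp

/-- A number field embeds into `ℚ_p` for infinitely many `p`. -/
theorem split (K : Type) [Field K] [NumberField K] (p0 : ℕ) :
    ∃ (p : ℕ) (_ : Fact p.Prime), p0 ≤ p ∧ Nonempty (K →+* ℚ_[p]) := by
  set pb := Field.powerBasisOfFiniteOfSeparable ℚ K with hpb
  set f := minpoly ℚ pb.gen with hf
  have hint : IsIntegral ℚ pb.gen := Algebra.IsIntegral.isIntegral _
  have hirr : Irreducible f := minpoly.irreducible hint
  have hdeg : 0 < f.natDegree := minpoly.natDegree_pos hint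
  obtain ⟨u, v, huv⟩ := hirr.separable
  obtain ⟨b, hb, F, hF⟩ := clear f
  obtain ⟨b1, hb1, U, hU⟩ := clear u
  obtain ⟨b2, hb2, V, hV⟩ := clear v
  have hinj : Function.Injective (algebraMap ℤ ℚ) := (algebraMap ℤ ℚ).injective_int
  have hFdeg : F.natDegree = f.natDegree := by
    rw [← Polynomial.natDegree_map_eq_of_injective hinj F, hF,
      Polynomial.natDegree_C_mul (by exact_mod_cast hb)]
  have hF' : (derivative F).map (algebraMap ℤ ℚ) = C (b : ℚ) * derivative f := by
    rw [← derivative_map, hF, derivative_C_mul]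
  have hD : C b2 * U * F + C b1 * V * derivative F = C (b * b1 * b2) := by
    apply Polynomial.map_injective _ hinj
    simp only [Polynomial.map_add, Polynomial.map_mul, Polynomial.map_C, hU, hV, hF, hF']
    have e : C (algebraMap ℤ ℚ b2) * (C (b1 : ℚ) * u) * (C (b : ℚ) * f) +
        C (algebraMap ℤ ℚ b1) * (C (b2 : ℚ) * v) * (C (b : ℚ) * derivative f) =
        C (b : ℚ) * C (b1 : ℚ) * C (b2 : ℚ) * (u * f + v * derivative f) := by
      simp only [eq_intCast]
      ring
    rw [e, huv, mul_one]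
    simp
  obtain ⟨p, hp, hp0, hpD, m, hm⟩ := schur F (by omega) (b * b1 * b2)
    (mul_ne_zero (mul_ne_zero hb hb1) hb2) p0
  have : Fact p.Prime := ⟨hp⟩
  have hpF' : ¬ (p : ℤ) ∣ (derivative F).eval m := by
    intro h
    apply hpD
    have e := congrArg (Polynomial.eval m) hD
    simp only [eval_add, eval_mul, eval_C] at e
    rw [← e]
    exact (hm.mul_left _).add (h.mul_left _)
  -- Hensel
  have e1 : ∀ G : ℤ[X], (Polynomial.aeval ((m : ℤ) : ℤ_[p]) G) = ((G.eval m : ℤ) : ℤ_[p]) := by
    intro G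
    have := Polynomial.aeval_algebraMap_apply (A := ℤ) ℤ_[p] m G
    simpa using this
  have n1 : ‖Polynomial.aeval ((m : ℤ) : ℤ_[p]) F‖ < 1 := by
    rw [e1, PadicInt.norm_int_lt_one_iff_dvd]; exact hm
  have n2 : ‖Polynomial.aeval ((m : ℤ) : ℤ_[p]) (derivative F)‖ = 1 := by
    refine le_antisymm (PadicInt.norm_le_one _) ?_
    by_contra h
    push Not at h
    rw [e1, PadicInt.norm_int_lt_one_iff_dvd] at h
    exact hpF' h
  obtain ⟨z, hz, -⟩ := hensels_lemma (F := F) (a := ((m : ℤ) : ℤ_[p])) (by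
    rw [n2]; simpa using n1)
  have hy : Polynomial.aeval (z : ℚ_[p]) f = 0 := by
    have h1 : Polynomial.aeval (z : ℚ_[p]) F = 0 := by
      have := Polynomial.aeval_algebraMap_apply (R := ℤ) (A := ℤ_[p]) ℚ_[p] z F
      rw [hz, map_zero] at this
      exact this
    have h2 : Polynomial.aeval (z : ℚ_[p]) (F.map (algebraMap ℤ ℚ)) = 0 := by
      rw [Polynomial.aeval_map_algebraMap]; exact h1
    rw [hF, map_mul, Polynomial.aeval_C] at h2
    rcases mul_eq_zero.1 h2 with h3 | h3
    · exfalso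
      have : (b : ℚ) = 0 := by
        have h4 := (algebraMap ℚ ℚ_[p]).injective
        exact h4 (by rw [h3, map_zero])
      exact hb (by exact_mod_cast this)
    · exact h3
  exact ⟨p, ⟨hp⟩, hp0, ⟨(pb.lift (z : ℚ_[p]) hy).toRingHom⟩⟩


/-- a finite extension `M` of a number field `k` inside its algebraic closure is mapped into `ℚ_p`
by a suitable embedding of the algebraic closure of `k` into that of `ℚ_p` -/
theorem exists_emb (k : Type) [Field k] [NumberField k]
    (M : IntermediateField k (AlgebraicClosure k)) [FiniteDimensional k M] (p0 : ℕ) :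
    ∃ (p : ℕ) (_ : Fact p.Prime), p0 ≤ p ∧ ∃ ι : AlgebraicClosure k →+* PadicAlgCl p,
      ∀ a ∈ M, ∃ b : ℚ_[p], ι a = algebraMap ℚ_[p] (PadicAlgCl p) b := by
  have : NumberField M := NumberField.of_module_finite k M
  obtain ⟨p, hp, hp0, ⟨f⟩⟩ := split M p0
  refine ⟨p, hp, hp0, ?_⟩
  let g : M →+* PadicAlgCl p := (algebraMap ℚ_[p] (PadicAlgCl p)).comp f
  let : Algebra M (PadicAlgCl p) := g.toAlgebra
  have htf : Module.IsTorsionFree M (PadicAlgCl p) :=
    Module.isTorsionFree_iff_algebraMap_injective.2 g.injective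
  have halg : Algebra.IsAlgebraic M (AlgebraicClosure k) :=
    Algebra.IsAlgebraic.tower_top (K := k) M
  let ι : AlgebraicClosure k →ₐ[M] PadicAlgCl p := IsAlgClosed.lift
  refine ⟨ι.toRingHom, fun a ha => ⟨f ⟨a, ha⟩, ?_⟩⟩
  exact ι.commutes ⟨a, ha⟩

end Pool.Agent.DDS
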