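import Pool.Agent.Helper12_DDS.Defs

/-!
# Closeness of the new points
-/

set_option autoImplicit false

noncomputable section

namespace Pool.Agent.DDS

open Polynomial Filter Topology

variable {K : Type} [Field K] {T : Type} [Finite T]

instance finDimFld (x : T → AlgebraicClosure K) : FiniteDimensional K (Fld K x) :=
  IntermediateField.finiteDimensional_adjoin fun a _ => Algebra.IsIntegral.isIntegral a

omit [Finite T] in
lemma mem_Fld (x : T → AlgebraicClosure K) (j : T) : x j ∈ Fld K x :=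
  IntermediateField.subset_adjoin _ _ ⟨j, rfl⟩

lemma exists_ball {p : ℕ} [Fact p.Prime] {S : Type} [Finite S] (v : S → PadicAlgCl p)
    {pr : (S → PadicAlgCl p) → Prop} (h : ∀ᶠ u in 𝓝 v, pr u) :
    ∃ ε > 0, ∀ u : S → PadicAlgCl p, (∀ j, ‖u j - v j‖ < ε) → pr u := by
  cases nonempty_fintype S
  obtain ⟨ε, hε, h1⟩ := Metric.eventually_nhds_iff.1 h
  refine ⟨ε, hε, fun u hu => h1 ?_⟩
  rw [dist_pi_lt_iff hε]
  intro j
  rw [dist_eq_norm]
  exact hu j

/-- the embedding of the field of definition induced by an automorphism -/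
def res (x : T → AlgebraicClosure K) (s : AlgebraicClosure K ≃ₐ[K] AlgebraicClosure K) :
    Fld K x →ₐ[K] AlgebraicClosure K :=
  s.toAlgHom.comp (Fld K x).val

theorem exists_delta (x : T → AlgebraicClosure K) (A : T → MvPolynomial (Fin 2) (Fld K x))
    (D : MvPolynomial (Fin 2) (Fld K x)) (V : MvPolynomial T (Fld K x)) (Q : MvPolynomial T K)
    (hD : MvPolynomial.aeval ![(0 : AlgebraicClosure K), 1] D ≠ 0)
    (hA : ∀ j, MvPolynomial.aeval ![(0 : AlgebraicClosure K), 1] (A j) =
      x j * MvPolynomial.aeval ![(0 : AlgebraicClosure K), 1] D)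
    (hV : MvPolynomial.aeval x V ≠ 0) (hQ : MvPolynomial.aeval x Q ≠ 0)
    {p : ℕ} [Fact p.Prime] (ι : AlgebraicClosure K →+* PadicAlgCl p) :
    ∃ δ > 0, ∀ w y : AlgebraicClosure K,
      (∀ s : AlgebraicClosure K ≃ₐ[K] AlgebraicClosure K, ‖ι (s w)‖ < δ) →
      (∀ s : AlgebraicClosure K ≃ₐ[K] AlgebraicClosure K, ‖ι (s y) - 1‖ < δ) →
      ∀ z : T → AlgebraicClosure K,
        (∀ j, z j = MvPolynomial.aeval ![w, y] (A j) / MvPolynomial.aeval ![w, y] D) →
        MvPolynomial.aeval ![w, y] D ≠ 0 ∧ MvPolynomial.aeval z Q ≠ 0 ∧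
        MvPolynomial.aeval z V ≠ 0 ∧
        ∀ s : AlgebraicClosure K ≃ₐ[K] AlgebraicClosure K, (∀ j, s (z j) = z j) →
          ∀ j, s (x j) = x j := by
  classical
  -- the radius in the target
  obtain ⟨ε1, hε1, h1⟩ : ∃ ε > 0, ∀ u : T → PadicAlgCl p, (∀ j, ‖u j - ι (x j)‖ < ε) →
      MvPolynomial.eval₂ (ι.comp (algebraMap K (AlgebraicClosure K))) u Q ≠ 0 ∧
      MvPolynomial.eval₂ (ι.comp (algebraMap (Fld K x) (AlgebraicClosure K))) u V ≠ 0 := by
    refine exists_ball (fun j => ι (x j)) (Filter.Eventually.and ?_ ?_)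
    · have hc : Continuous fun u : T → PadicAlgCl p =>
          MvPolynomial.eval₂ (ι.comp (algebraMap K (AlgebraicClosure K))) u Q := by
        simp only [MvPolynomial.eval₂_eq_eval_map]
        exact MvPolynomial.continuous_eval _
      have hne : MvPolynomial.eval₂ (ι.comp (algebraMap K (AlgebraicClosure K)))
          (fun j => ι (x j)) Q ≠ 0 := by
        have e := MvPolynomial.eval₂_comp_left ι (algebraMap K (AlgebraicClosure K)) x Q
        rw [← MvPolynomial.aeval_def] at e
        intro h0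
        have e2 : ι (MvPolynomial.aeval x Q) = 0 := e.trans h0
        exact hQ ((map_eq_zero ι).1 e2)
      exact hc.continuousAt.eventually_ne hne
    · have hc : Continuous fun u : T → PadicAlgCl p =>
          MvPolynomial.eval₂ (ι.comp (algebraMap (Fld K x) (AlgebraicClosure K))) u V := by
        simp only [MvPolynomial.eval₂_eq_eval_map]
        exact MvPolynomial.continuous_eval _
      have hne : MvPolynomial.eval₂ (ι.comp (algebraMap (Fld K x) (AlgebraicClosure K)))
          (fun j => ι (x j)) V ≠ 0 := by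
        have e := MvPolynomial.eval₂_comp_left ι (algebraMap (Fld K x) (AlgebraicClosure K)) x V
        rw [← MvPolynomial.aeval_def] at e
        intro h0
        have e2 : ι (MvPolynomial.aeval x V) = 0 := e.trans h0
        exact hV ((map_eq_zero ι).1 e2)
      exact hc.continuousAt.eventually_ne hne
  obtain ⟨ε2, hε2, h2⟩ : ∃ ε > 0, ∀ (τ : Fld K x →ₐ[K] AlgebraicClosure K) (j : T),
      τ ⟨x j, mem_Fld x j⟩ ≠ x j → ε ≤ ‖ι (τ ⟨x j, mem_Fld x j⟩) - ι (x j)‖ := by
    have hev : ∀ᶠ ε in 𝓝[>] (0 : ℝ), ∀ (τ : Fld K x →ₐ[K] AlgebraicClosure K) (j : T),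
        τ ⟨x j, mem_Fld x j⟩ ≠ x j → ε ≤ ‖ι (τ ⟨x j, mem_Fld x j⟩) - ι (x j)‖ := by
      rw [Filter.eventually_all]
      intro τ
      rw [Filter.eventually_all]
      intro j
      by_cases h : τ ⟨x j, mem_Fld x j⟩ = x j
      · exact Filter.Eventually.of_forall fun ε h' => absurd h h'
      · have hpos : 0 < ‖ι (τ ⟨x j, mem_Fld x j⟩) - ι (x j)‖ := by
          rw [norm_pos_iff, sub_ne_zero]
          exact fun h' => h (ι.injective h')
        filter_upwards [Ioo_mem_nhdsGT hpos] with ε hε _
        exact hε.2.le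
    obtain ⟨ε, h3, h4⟩ := (hev.and self_mem_nhdsWithin).exists
    exact ⟨ε, h4, h3⟩
  set ε := min ε1 ε2 with hε
  have hε0 : 0 < ε := lt_min hε1 hε2
  -- the radius in the source
  obtain ⟨δ, hδ, h3⟩ : ∃ δ > 0, ∀ u : Fin 2 → PadicAlgCl p, (∀ i, ‖u i - ![0, 1] i‖ < δ) →
      ∀ (τ : Fld K x →ₐ[K] AlgebraicClosure K),
        MvPolynomial.eval₂ (ι.comp (τ : Fld K x →+* AlgebraicClosure K)) u D ≠ 0 ∧
        ∀ j, ‖MvPolynomial.eval₂ (ι.comp (τ : Fld K x →+* AlgebraicClosure K)) u (A j) /
          MvPolynomial.eval₂ (ι.comp (τ : Fld K x →+* AlgebraicClosure K)) u D -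
            ι (τ ⟨x j, mem_Fld x j⟩)‖ < ε := by
    refine exists_ball ![0, 1] ?_
    rw [Filter.eventually_all]
    intro τ
    have hval : ∀ B : MvPolynomial (Fin 2) (Fld K x),
        MvPolynomial.eval₂ (ι.comp (τ : Fld K x →+* AlgebraicClosure K)) ![0, 1] B =
          ι (τ (MvPolynomial.eval ![0, 1] B)) := by
      intro B
      have e := MvPolynomial.eval₂_comp_left (ι.comp (τ : Fld K x →+* AlgebraicClosure K))
        (RingHom.id _) ![0, 1] B
      rw [RingHom.comp_id] at e
      have e2 : (ι.comp (τ : Fld K x →+* AlgebraicClosure K)) ∘ ![(0 : Fld K x), 1] =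
          ![(0 : PadicAlgCl p), 1] := by
        funext i
        fin_cases i <;> simp
      rw [e2] at e
      rw [← e]
      rfl
    have hcont : ∀ B : MvPolynomial (Fin 2) (Fld K x), Continuous fun u : Fin 2 → PadicAlgCl p =>
        MvPolynomial.eval₂ (ι.comp (τ : Fld K x →+* AlgebraicClosure K)) u B := by
      intro B
      simp only [MvPolynomial.eval₂_eq_eval_map]
      exact MvPolynomial.continuous_eval _
    have hev : ∀ B : MvPolynomial (Fin 2) (Fld K x),
        MvPolynomial.aeval ![(0 : AlgebraicClosure K), 1] B =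
          ((MvPolynomial.eval ![0, 1] B : Fld K x) : AlgebraicClosure K) := by
      intro B
      have e := MvPolynomial.eval₂_comp_left (algebraMap (Fld K x) (AlgebraicClosure K))
        (RingHom.id _) ![0, 1] B
      rw [RingHom.comp_id] at e
      have e2 : (algebraMap (Fld K x) (AlgebraicClosure K)) ∘ ![(0 : Fld K x), 1] =
          ![(0 : AlgebraicClosure K), 1] := by
        funext i
        fin_cases i <;> simp
      rw [e2] at e
      rw [MvPolynomial.aeval_def, ← e]
      rfl
    have hD0 : MvPolynomial.eval ![0, 1] D ≠ 0 := by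
      intro h0
      apply hD
      rw [hev, h0]
      rfl
    have hA0 : ∀ j, MvPolynomial.eval ![0, 1] (A j) =
        ⟨x j, mem_Fld x j⟩ * MvPolynomial.eval ![0, 1] D := by
      intro j
      apply Subtype.ext
      have := hA j
      rw [hev, hev] at this
      exact this
    have hne : MvPolynomial.eval₂ (ι.comp (τ : Fld K x →+* AlgebraicClosure K)) ![0, 1] D ≠ 0 := by
      rw [hval]
      intro h0
      exact hD0 ((map_eq_zero (ι.comp (τ : Fld K x →+* AlgebraicClosure K))).1 h0)
    refine ((hcont D).continuousAt.eventually_ne hne).and ?_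
    rw [Filter.eventually_all]
    intro j
    have hct : ContinuousAt (fun u : Fin 2 → PadicAlgCl p =>
        MvPolynomial.eval₂ (ι.comp (τ : Fld K x →+* AlgebraicClosure K)) u (A j) /
          MvPolynomial.eval₂ (ι.comp (τ : Fld K x →+* AlgebraicClosure K)) u D -
            ι (τ ⟨x j, mem_Fld x j⟩)) ![0, 1] :=
      (((hcont (A j)).continuousAt).div ((hcont D).continuousAt) hne).sub continuousAt_const
    have hz : MvPolynomial.eval₂ (ι.comp (τ : Fld K x →+* AlgebraicClosure K)) ![0, 1] (A j) /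
          MvPolynomial.eval₂ (ι.comp (τ : Fld K x →+* AlgebraicClosure K)) ![0, 1] D -
            ι (τ ⟨x j, mem_Fld x j⟩) = 0 := by
      rw [hval] at hne
      rw [hval, hval, hA0, map_mul, map_mul, mul_div_assoc, div_self hne, mul_one, sub_self]
    have h5 := hct.norm
    have h6 : ‖MvPolynomial.eval₂ (ι.comp (τ : Fld K x →+* AlgebraicClosure K)) ![0, 1] (A j) /
          MvPolynomial.eval₂ (ι.comp (τ : Fld K x →+* AlgebraicClosure K)) ![0, 1] D -
            ι (τ ⟨x j, mem_Fld x j⟩)‖ < ε := by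
      rw [hz, norm_zero]
      exact hε0
    exact h5.eventually_lt continuousAt_const h6
  refine ⟨δ, hδ, fun w y hw hy z hz => ?_⟩
  -- transport along an automorphism
  have htr : ∀ (s : AlgebraicClosure K ≃ₐ[K] AlgebraicClosure K)
      (B : MvPolynomial (Fin 2) (Fld K x)), ι (s (MvPolynomial.aeval ![w, y] B)) =
        MvPolynomial.eval₂ (ι.comp ((res x s : Fld K x →ₐ[K] AlgebraicClosure K) :
          Fld K x →+* AlgebraicClosure K)) ![ι (s w), ι (s y)] B := by
    intro s B
    have e := MvPolynomial.eval₂_comp_left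
      (ι.comp (s : AlgebraicClosure K →+* AlgebraicClosure K))
      (algebraMap (Fld K x) (AlgebraicClosure K)) ![w, y] B
    rw [← MvPolynomial.aeval_def] at e
    have e2 : (ι.comp (s : AlgebraicClosure K →+* AlgebraicClosure K)) ∘ ![w, y] =
        ![ι (s w), ι (s y)] := by
      funext i
      fin_cases i <;> simp
    rw [e2] at e
    exact e
  have hclose : ∀ s : AlgebraicClosure K ≃ₐ[K] AlgebraicClosure K,
      ι (s (MvPolynomial.aeval ![w, y] D)) ≠ 0 ∧ ∀ j, ‖ι (s (z j)) - ι (s (x j))‖ < ε := by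
    intro s
    have h4 := h3 ![ι (s w), ι (s y)] (fun i => by
      fin_cases i
      · simpa using hw s
      · simpa using hy s) (res x s)
    refine ⟨?_, fun j => ?_⟩
    · rw [htr]
      exact h4.1
    · have h5 := h4.2 j
      rw [← htr, ← htr, ← map_div₀, ← map_div₀, ← hz j] at h5
      exact h5
  have hone := hclose AlgEquiv.refl
  have hsmall : ∀ j, ‖ι (z j) - ι (x j)‖ < ε1 := fun j =>
    lt_of_lt_of_le (hone.2 j) (min_le_left _ _)
  have h7 := h1 (fun j => ι (z j)) hsmall
  refine ⟨fun h0 => hone.1 (by simp [h0]), ?_, ?_, ?_⟩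
  · intro h0
    have e := MvPolynomial.eval₂_comp_left ι (algebraMap K (AlgebraicClosure K)) z Q
    rw [← MvPolynomial.aeval_def, h0, map_zero] at e
    exact h7.1 e.symm
  · intro h0
    have e := MvPolynomial.eval₂_comp_left ι (algebraMap (Fld K x) (AlgebraicClosure K)) z V
    rw [← MvPolynomial.aeval_def, h0, map_zero] at e
    exact h7.2 e.symm
  · intro s hs j
    by_contra hne
    have h8 := h2 (res x s) j hne
    have h9 := (hclose s).2 j
    rw [hs j] at h9
    have h10 : ‖ι (s (x j)) - ι (x j)‖ < ε := by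
      have e : ι (s (x j)) - ι (x j) = (ι (z j) - ι (x j)) + (ι (s (x j)) - ι (z j)) := by ring
      rw [norm_sub_rev] at h9
      rw [e]
      exact lt_of_le_of_lt (IsUltrametricDist.norm_add_le_max _ _) (max_lt (hone.2 j) h9)
    have h11 : ε ≤ ε2 := min_le_right _ _
    exact absurd h8 (not_le.2 (lt_of_lt_of_le h10 h11))

end Pool.Agent.DDS
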