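import Mathlib

/-!
# Sizes of the roots of the polynomials `c ^ 2 * w ^ n + 2 * c * S (w) + E (w)`
-/

set_option autoImplicit false

noncomputable section

namespace Pool.Agent.DDS

open Polynomial

variable {P : Type*} [NormedField P] [IsUltrametricDist P]

lemma norm_eval_le {S : P[X]} {C : ℝ} (hC : 0 ≤ C) (hS : ∀ i, ‖S.coeff i‖ ≤ C) {w : P}
    (hw : ‖w‖ ≤ 1) : ‖S.eval w‖ ≤ C := by
  rw [eval_eq_sum_range]
  refine IsUltrametricDist.norm_sum_le_of_forall_le_of_nonneg hC fun i _ => ?_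
  rw [norm_mul, norm_pow]
  calc ‖S.coeff i‖ * ‖w‖ ^ i ≤ C * 1 :=
        mul_le_mul (hS i) (pow_le_one₀ (norm_nonneg _) hw) (by positivity) hC
    _ = C := mul_one _

lemma norm_eval_le' {S : P[X]} {C : ℝ} (hC : 0 ≤ C) (hS : ∀ i, ‖S.coeff i‖ ≤ C) {w : P}
    (hw : 1 ≤ ‖w‖) {N : ℕ} (hN : S.natDegree ≤ N) : ‖S.eval w‖ ≤ C * ‖w‖ ^ N := by
  rw [eval_eq_sum_range]
  refine IsUltrametricDist.norm_sum_le_of_forall_le_of_nonneg (by positivity) fun i hi => ?_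
  rw [norm_mul, norm_pow]
  refine mul_le_mul (hS i) (pow_le_pow_right₀ hw ?_) (by positivity) hC
  have := Finset.mem_range.1 hi
  omega

lemma norm_eval_sub {S : P[X]} {C : ℝ} (hC : 0 ≤ C) (hS : ∀ i, ‖S.coeff i‖ ≤ C) {w : P}
    (hw : ‖w‖ ≤ 1) : ‖S.eval w - S.coeff 0‖ ≤ C * ‖w‖ := by
  have h1 : S.eval w - S.coeff 0 = w * (S.divX).eval w := by
    have h := congrArg (eval w) S.divX_mul_X_add
    rw [eval_add, eval_mul, eval_X, eval_C] at h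
    linear_combination -h
  rw [h1, norm_mul, mul_comm]
  refine mul_le_mul_of_nonneg_right (norm_eval_le hC (fun i => ?_) hw) (norm_nonneg _)
  rw [coeff_divX]
  exact hS _

/-- The size of the roots. -/
theorem root_norm {n : ℕ} (hn : 1 ≤ n) {S E : P[X]} {C : ℝ} (hC : 1 ≤ C)
    (hS : ∀ i, ‖S.coeff i‖ ≤ C) (hE : ∀ i, ‖E.coeff i‖ ≤ C) (hSn : S.natDegree ≤ n - 1)
    (hEn : E.natDegree ≤ n) (hS0 : S.coeff 0 = 1) (h2 : ‖(2 : P)‖ = 1) {c w : P}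
    (hc : C ^ (n + 1) < ‖c‖) (hw : c ^ 2 * w ^ n + 2 * c * S.eval w + E.eval w = 0) :
    ‖c‖ * ‖w‖ ^ n = 1 ∧ ‖S.eval w + E.eval w / c - 1‖ ≤ C * ‖w‖ := by
  have hC0 : 0 ≤ C := by linarith
  have hCc : C < ‖c‖ := by
    refine lt_of_le_of_lt ?_ hc
    calc C = C ^ 1 := (pow_one C).symm
      _ ≤ C ^ (n + 1) := pow_le_pow_right₀ hC (by omega)
  have hc1 : 1 < ‖c‖ := by linarith
  have hc0 : c ≠ 0 := by
    intro h
    rw [h, norm_zero] at hc1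
    linarith
  have hw' : c ^ 2 * w ^ n = -(2 * c * S.eval w + E.eval w) := by
    linear_combination hw
  have hnorm : ‖c‖ ^ 2 * ‖w‖ ^ n = ‖2 * c * S.eval w + E.eval w‖ := by
    rw [← norm_pow, ← norm_pow, ← norm_mul, hw', norm_neg]
  have hmax : ‖2 * c * S.eval w + E.eval w‖ ≤ max ‖2 * c * S.eval w‖ ‖E.eval w‖ :=
    IsUltrametricDist.norm_add_le_max _ _
  have h2c : ‖2 * c * S.eval w‖ = ‖c‖ * ‖S.eval w‖ := by
    rw [norm_mul, norm_mul, h2, one_mul]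
  -- the root is small
  have hw1 : ‖w‖ < 1 := by
    by_contra hcon
    push Not at hcon
    have e1 : ‖2 * c * S.eval w‖ ≤ ‖c‖ * (C * ‖w‖ ^ n) := by
      rw [h2c]
      refine mul_le_mul_of_nonneg_left ?_ (norm_nonneg _)
      exact norm_eval_le' hC0 hS hcon (by omega)
    have e2 : ‖E.eval w‖ ≤ ‖c‖ * (C * ‖w‖ ^ n) := by
      refine (norm_eval_le' hC0 hE hcon hEn).trans ?_
      have : 0 ≤ C * ‖w‖ ^ n := by positivity
      nlinarith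
    have e3 : ‖c‖ ^ 2 * ‖w‖ ^ n ≤ ‖c‖ * (C * ‖w‖ ^ n) := by
      rw [hnorm]
      exact hmax.trans (max_le e1 e2)
    have e4 : 0 < ‖c‖ * ‖w‖ ^ n := by
      have : 0 < ‖w‖ := by linarith
      positivity
    have e5 : (‖c‖ * ‖w‖ ^ n) * ‖c‖ ≤ (‖c‖ * ‖w‖ ^ n) * C := by
      calc (‖c‖ * ‖w‖ ^ n) * ‖c‖ = ‖c‖ ^ 2 * ‖w‖ ^ n := by ring
        _ ≤ ‖c‖ * (C * ‖w‖ ^ n) := e3
        _ = (‖c‖ * ‖w‖ ^ n) * C := by ring
    have e6 := le_of_mul_le_mul_left e5 e4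
    linarith
  have hrho : ‖c‖ * ‖w‖ ^ n ≤ C := by
    have e1 : ‖2 * c * S.eval w‖ ≤ ‖c‖ * C := by
      rw [h2c]
      exact mul_le_mul_of_nonneg_left (norm_eval_le hC0 hS hw1.le) (norm_nonneg _)
    have e2 : ‖E.eval w‖ ≤ ‖c‖ * C := by
      refine (norm_eval_le hC0 hE hw1.le).trans ?_
      nlinarith
    have e3 : ‖c‖ ^ 2 * ‖w‖ ^ n ≤ ‖c‖ * C := by
      rw [hnorm]
      exact hmax.trans (max_le e1 e2)
    have e5 : ‖c‖ * (‖c‖ * ‖w‖ ^ n) ≤ ‖c‖ * C := by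
      calc ‖c‖ * (‖c‖ * ‖w‖ ^ n) = ‖c‖ ^ 2 * ‖w‖ ^ n := by ring
        _ ≤ _ := e3
    exact le_of_mul_le_mul_left e5 (by linarith)
  have hCw : C * ‖w‖ < 1 := by
    by_contra hcon
    push Not at hcon
    have e1 : 1 ≤ (C * ‖w‖) ^ n := one_le_pow₀ hcon
    have e2 : C ^ (n + 1) * ‖w‖ ^ n = C * (C * ‖w‖) ^ n := by ring
    have e3 : C ≤ C ^ (n + 1) * ‖w‖ ^ n := by
      rw [e2]
      nlinarith
    have hw0 : 0 < ‖w‖ ^ n := by
      have : 0 < ‖w‖ := by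
        rcases (norm_nonneg w).eq_or_lt with h | h
        · rw [← h] at hcon
          linarith
        · exact h
      positivity
    have e4 : C ^ (n + 1) * ‖w‖ ^ n < ‖c‖ * ‖w‖ ^ n := mul_lt_mul_of_pos_right hc hw0
    linarith
  have hS1 : ‖S.eval w - 1‖ ≤ C * ‖w‖ := by
    have := norm_eval_sub hC0 hS hw1.le
    rwa [hS0] at this
  have hSn1 : ‖S.eval w‖ = 1 := by
    have e1 : ‖S.eval w - 1‖ < ‖(1 : P)‖ := by
      rw [norm_one]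
      linarith
    have e2 : S.eval w = (S.eval w - 1) + 1 := by ring
    rw [e2, IsUltrametricDist.norm_add_eq_max_of_norm_ne_norm e1.ne, max_eq_right e1.le, norm_one]
  have hEc : ‖E.eval w‖ < ‖2 * c * S.eval w‖ := by
    rw [h2c, hSn1, mul_one]
    exact lt_of_le_of_lt (norm_eval_le hC0 hE hw1.le) hCc
  have hmain : ‖c‖ ^ 2 * ‖w‖ ^ n = ‖c‖ := by
    rw [hnorm, IsUltrametricDist.norm_add_eq_max_of_norm_ne_norm hEc.ne', max_eq_left hEc.le, h2c,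
      hSn1, mul_one]
  have h1 : ‖c‖ * ‖w‖ ^ n = 1 := by
    have e1 : ‖c‖ * (‖c‖ * ‖w‖ ^ n) = ‖c‖ * 1 := by
      rw [mul_one]
      linear_combination hmain
    exact mul_left_cancel₀ (by linarith : ‖c‖ ≠ 0) e1
  refine ⟨h1, ?_⟩
  have e1 : S.eval w + E.eval w / c - 1 = (S.eval w - 1) + E.eval w / c := by ring
  rw [e1]
  refine (IsUltrametricDist.norm_add_le_max _ _).trans (max_le hS1 ?_)
  rw [norm_div]
  have e2 : ‖w‖ ^ n ≤ ‖w‖ := by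
    calc ‖w‖ ^ n ≤ ‖w‖ ^ 1 := pow_le_pow_of_le_one (norm_nonneg _) hw1.le hn
      _ = ‖w‖ := pow_one _
  have e3 : ‖E.eval w‖ ≤ C := norm_eval_le hC0 hE hw1.le
  rw [div_le_iff₀ (by linarith)]
  calc ‖E.eval w‖ ≤ C := e3
    _ = C * (‖c‖ * ‖w‖ ^ n) := by rw [h1, mul_one]
    _ ≤ C * (‖c‖ * ‖w‖) := by
        refine mul_le_mul_of_nonneg_left ?_ hC0
        exact mul_le_mul_of_nonneg_left e2 (norm_nonneg _)
    _ = C * ‖w‖ * ‖c‖ := by ring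

end Pool.Agent.DDS
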