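import Mathlib

/-!
# Truncated square roots
-/

set_option autoImplicit false

noncomputable section

namespace Pool.Agent.DDS

open Polynomial

theorem exists_trunc {L : Type*} [Field L] [CharZero L] {F : L[X]} (hF : F.coeff 0 = 1) (n : ℕ)
    (hn : 1 ≤ n) :
    ∃ S E : L[X], S.natDegree ≤ n - 1 ∧ S.coeff 0 = 1 ∧ S ^ 2 - F = X ^ n * E := by
  induction n, hn using Nat.le_induction with
  | base =>
    refine ⟨1, -F.divX, by simp, by simp, ?_⟩
    have h := F.divX_mul_X_add
    rw [hF] at h
    simp only [map_one] at h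
    linear_combination h
  | succ n hn ih =>
    obtain ⟨S, E, h1, h2, h3⟩ := ih
    set a : L := -(E.coeff 0) / 2 with ha
    have h4 : (E + 2 * C a * S + C a ^ 2 * X ^ n).coeff 0 = 0 := by
      have e1 : (2 * C a * S).coeff 0 = 2 * a := by
        rw [mul_coeff_zero, h2, mul_one, mul_coeff_zero, coeff_C_zero]
        congr 1
        exact coeff_ofNat_zero 2
      have e2 : (C a ^ 2 * X ^ n : L[X]).coeff 0 = 0 := by
        rw [mul_coeff_zero, coeff_X_pow, if_neg (by omega), mul_zero]
      rw [coeff_add, coeff_add, e1, e2, ha]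
      ring
    obtain ⟨E', hE'⟩ := X_dvd_iff.2 h4
    refine ⟨S + C a * X ^ n, E', ?_, ?_, ?_⟩
    · refine (natDegree_add_le _ _).trans (max_le (h1.trans (by omega)) ?_)
      exact (natDegree_C_mul_X_pow_le a n).trans (by omega)
    · rw [coeff_add, h2, coeff_C_mul, coeff_X_pow, if_neg (by omega)]
      ring
    · have e : (S + C a * X ^ n) ^ 2 - F = X ^ n * (E + 2 * C a * S + C a ^ 2 * X ^ n) := by
        linear_combination h3
      rw [e, hE', pow_succ]
      ring

theorem natDegree_E {L : Type*} [Field L] {F S E : L[X]} {n m : ℕ} (hS : S.natDegree ≤ n - 1)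
    (hF : F.natDegree ≤ 2 * m) (hm : m ≤ n) (h : S ^ 2 - F = X ^ n * E) : E.natDegree ≤ n := by
  by_cases hE : E = 0
  · simp [hE]
  have h1 : (X ^ n * E).natDegree = n + E.natDegree := by
    rw [natDegree_mul (pow_ne_zero _ X_ne_zero) hE, natDegree_X_pow]
  have h2 : (S ^ 2 - F).natDegree ≤ 2 * n := by
    refine (natDegree_sub_le _ _).trans (max_le ?_ (by omega))
    exact (natDegree_pow_le).trans (by omega)
  rw [h, h1] at h2
  omega

/-- The point of the curve. -/
theorem curve_identity {L : Type*} [Field L] {F S E : L[X]} {n : ℕ} (h : S ^ 2 - F = X ^ n * E)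
    {c w : L} (hc : c ≠ 0) (hw : c ^ 2 * w ^ n + 2 * c * S.eval w + E.eval w = 0) :
    (S.eval w + E.eval w / c) ^ 2 = F.eval w := by
  have e := congrArg (eval w) h
  simp only [eval_sub, eval_pow, eval_mul, eval_X] at e
  field_simp
  linear_combination c ^ 2 * e + E.eval w * hw

end Pool.Agent.DDS
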