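import Pool.Agent.Helper12_DDS.Degree
import Pool.Agent.Helper12_DDS.Root
import Pool.Agent.Helper12_DDS.Trunc
import Pool.Agent.Helper12_DDS.Emb

/-!
# New points near a pointed curve of small genus
-/

set_option autoImplicit false

noncomputable section

namespace Pool.Agent.DDS

open Polynomial

lemma exists_bound {K W : Type*} [Field K] [Field W] {p : ℕ} [Fact p.Prime]
    {ι : Type*} [Finite ι] (φ : ι → K →+* PadicAlgCl p) (S : K[X]) :
    ∃ C : ℝ, ∀ t i, ‖φ t (S.coeff i)‖ ≤ C := by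
  obtain ⟨C, hC⟩ := (Set.finite_range fun u : ι × Fin (S.natDegree + 1) =>
    ‖φ u.1 (S.coeff u.2)‖).bddAbove
  refine ⟨max C 0, fun t i => ?_⟩
  by_cases hi : i < S.natDegree + 1
  · exact (hC ⟨(t, ⟨i, hi⟩), rfl⟩).trans (le_max_left _ _)
  · rw [coeff_eq_zero_of_natDegree_lt (by omega), map_zero, norm_zero]
    exact le_max_right _ _

lemma norm_natCast_p (p : ℕ) [Fact p.Prime] : ‖(p : PadicAlgCl p)‖ = (p : ℝ)⁻¹ := by
  have h := PadicAlgCl.norm_extends p (p : ℚ_[p])
  have h2 : (((p : ℚ_[p]) : ℚ_[p]) : PadicAlgCl p) = (p : PadicAlgCl p) :=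
    map_natCast _ _
  rw [h2] at h
  rw [h, Padic.norm_p]

lemma norm_two_p (p : ℕ) [Fact p.Prime] (hp : 3 ≤ p) : ‖(2 : PadicAlgCl p)‖ = 1 := by
  have h := PadicAlgCl.norm_extends p (2 : ℚ_[p])
  have h2 : ((2 : ℚ_[p]) : PadicAlgCl p) = (2 : PadicAlgCl p) :=
    map_ofNat _ _
  rw [h2] at h
  rw [h]
  have h3 : ((2 : ℕ) : ℚ_[p]) = (2 : ℚ_[p]) := by norm_num
  rw [← h3, Padic.norm_natCast_eq_one_iff]
  exact (Nat.coprime_primes (Fact.out : p.Prime) Nat.prime_two).2 (by omega)

/-- exponents -/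
lemma exists_exponent {p n : ℕ} (hp : 1 < p) (hn : 1 ≤ n) (B : ℝ) :
    ∃ m : ℕ, Nat.Coprime m n ∧ B < (p : ℝ) ^ m := by
  have hp1 : (1 : ℝ) < p := by exact_mod_cast hp
  obtain ⟨j, hj⟩ := pow_unbounded_of_one_lt B hp1
  refine ⟨1 + n * j, ?_, lt_of_lt_of_le hj ?_⟩
  · rw [Nat.coprime_comm]
    simp
  · exact pow_le_pow_right₀ hp1.le (by nlinarith)

variable {K : Type} [Field K] [NumberField K] {T : Type} [Finite T]

theorem pointed_step {g : ℕ} (x : T → AlgebraicClosure K) (F : (Fld K x)[X])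
    (A : T → MvPolynomial (Fin 2) (Fld K x))
    (D : MvPolynomial (Fin 2) (Fld K x)) (U V : MvPolynomial T (Fld K x))
    (hF : F.natDegree ≤ 2 * g + 2) (hF0 : F.coeff 0 = 1)
    (hD : MvPolynomial.aeval ![(0 : AlgebraicClosure K), 1] D ≠ 0)
    (hA : ∀ j, MvPolynomial.aeval ![(0 : AlgebraicClosure K), 1] (A j) =
      x j * MvPolynomial.aeval ![(0 : AlgebraicClosure K), 1] D)
    (hV : MvPolynomial.aeval x V ≠ 0)
    (hU : ∀ w y : AlgebraicClosure K, y ^ 2 = Polynomial.aeval w F →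
      MvPolynomial.aeval ![w, y] D ≠ 0 →
      MvPolynomial.aeval
          (fun j => MvPolynomial.aeval ![w, y] (A j) / MvPolynomial.aeval ![w, y] D) U =
        w * MvPolynomial.aeval
          (fun j => MvPolynomial.aeval ![w, y] (A j) / MvPolynomial.aeval ![w, y] D) V)
    (Q : MvPolynomial T K) (hQ : MvPolynomial.aeval x Q ≠ 0) {n : ℕ} (hn : g < n) :
    ∃ w y : AlgebraicClosure K, y ^ 2 = Polynomial.aeval w F ∧ MvPolynomial.aeval ![w, y] D ≠ 0 ∧
      ptDeg K (fun j => MvPolynomial.aeval ![w, y] (A j) / MvPolynomial.aeval ![w, y] D) =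
        ptDeg K x * n ∧
      MvPolynomial.aeval
        (fun j => MvPolynomial.aeval ![w, y] (A j) / MvPolynomial.aeval ![w, y] D) Q ≠ 0 := by
  classical
  have hn1 : 1 ≤ n := by omega
  obtain ⟨p, hp, hp3, ι, hι⟩ := exists_emb K (Fld K x) 3
  have hp1 : (1 : ℝ) < p := by exact_mod_cast hp.out.one_lt
  have hp0 : (0 : ℝ) < p := by linarith
  obtain ⟨S, E, hS1, hS0, hSE⟩ := exists_trunc hF0 n hn1
  have hE1 : E.natDegree ≤ n := natDegree_E (m := g + 1) hS1 (by omega) (by omega) hSE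
  -- uniform bound
  have hfin : Finite (Fld K x →ₐ[K] AlgebraicClosure K) := inferInstance
  obtain ⟨C1, hC1⟩ := exists_bound (W := K)
    (fun τ : Fld K x →ₐ[K] AlgebraicClosure K => ι.comp (τ : Fld K x →+* AlgebraicClosure K)) S
  obtain ⟨C2, hC2⟩ := exists_bound (W := K)
    (fun τ : Fld K x →ₐ[K] AlgebraicClosure K => ι.comp (τ : Fld K x →+* AlgebraicClosure K)) E
  set C : ℝ := max 1 (max C1 C2) with hC
  have hC1' : 1 ≤ C := le_max_left _ _
  have hC0 : 0 < C := by linarith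
  obtain ⟨δ, hδ, hnear⟩ := exists_delta x A D V Q hD hA hV hQ ι
  -- the exponent
  set B : ℝ := max (C ^ (n + 1)) (((δ / C) ^ n)⁻¹) with hB
  obtain ⟨m, hm1, hm2⟩ := exists_exponent hp.out.one_lt hn1 B
  set c : Fld K x := ((p : Fld K x) ^ m)⁻¹ with hc
  have hpL : (p : Fld K x) ≠ 0 := by exact_mod_cast hp.out.ne_zero
  have hc0 : c ≠ 0 := inv_ne_zero (pow_ne_zero _ hpL)
  have hcn : ∀ φ : Fld K x →+* PadicAlgCl p, ‖φ c‖ = (p : ℝ) ^ m := by
    intro φ
    rw [hc, map_inv₀, map_pow, map_natCast, norm_inv, norm_pow, norm_natCast_p, inv_pow, inv_inv]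
  set q : (Fld K x)[X] := Polynomial.C (c ^ 2) * X ^ n + Polynomial.C (2 * c) * S + E with hq
  have hqn : q.natDegree ≤ n := by
    refine (natDegree_add_le _ _).trans (max_le ((natDegree_add_le _ _).trans (max_le ?_ ?_)) hE1)
    · exact natDegree_C_mul_X_pow_le _ _
    · exact (natDegree_C_mul_le _ _).trans (hS1.trans (by omega))
  have hqc : q.coeff n = c ^ 2 + E.coeff n := by
    rw [hq, coeff_add, coeff_add, coeff_C_mul, coeff_C_mul, coeff_X_pow, if_pos rfl,
      coeff_eq_zero_of_natDegree_lt (by omega : S.natDegree < n)]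
    ring
  have hqc0 : q.coeff n ≠ 0 := by
    rw [hqc]
    intro h0
    have h1 := hC2 (res x AlgEquiv.refl) n
    have h2 : E.coeff n = -c ^ 2 := by linear_combination h0
    rw [h2, map_neg, norm_neg, map_pow, norm_pow, hcn] at h1
    have h3 : C2 ≤ C := (le_max_right _ _).trans (le_max_right _ _)
    have h4 : C ^ (n + 1) < (p : ℝ) ^ m := lt_of_le_of_lt (le_max_left _ _) hm2
    have h5 : C ≤ C ^ (n + 1) := by
      calc C = C ^ 1 := (pow_one C).symm
        _ ≤ C ^ (n + 1) := pow_le_pow_right₀ hC1' (by omega)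
    have h6 : (p : ℝ) ^ m ≤ ((p : ℝ) ^ m) ^ 2 := by
      have : 1 ≤ (p : ℝ) ^ m := one_le_pow₀ hp1.le
      nlinarith
    linarith
  have hq0 : q ≠ 0 := by
    intro h0
    rw [h0, coeff_zero] at hqc0
    exact hqc0 rfl
  have hqd : q.natDegree = n := le_antisymm hqn (le_natDegree_of_ne_zero hqc0)
  obtain ⟨w, hw⟩ := IsAlgClosed.exists_aeval_eq_zero (AlgebraicClosure K) q (by
    rw [degree_eq_natDegree hq0, hqd]
    exact_mod_cast (by omega : n ≠ 0))
  have hweq : (c : AlgebraicClosure K) ^ 2 * w ^ n + 2 * (c : AlgebraicClosure K) *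
      Polynomial.aeval w S + Polynomial.aeval w E = 0 := by
    have h := hw
    rw [hq] at h
    simp only [map_add, map_mul, aeval_C, map_pow, aeval_X] at h
    have e2 : algebraMap (Fld K x) (AlgebraicClosure K) (2 : Fld K x) = 2 := map_ofNat _ _
    rw [e2] at h
    exact h
  set y : AlgebraicClosure K := Polynomial.aeval w S + Polynomial.aeval w E /
    (c : AlgebraicClosure K) with hy
  have hc0' : (c : AlgebraicClosure K) ≠ 0 := by
    intro h
    exact hc0 (Subtype.ext h)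
  -- sizes
  have hsize : ∀ s : AlgebraicClosure K ≃ₐ[K] AlgebraicClosure K,
      (p : ℝ) ^ m * ‖ι (s w)‖ ^ n = 1 ∧ ‖ι (s y) - 1‖ ≤ C * ‖ι (s w)‖ := by
    intro s
    set φ : Fld K x →+* PadicAlgCl p := ι.comp ((res x s : Fld K x →ₐ[K] AlgebraicClosure K) :
          Fld K x →+* AlgebraicClosure K) with hφ
    have hmap : ∀ G : (Fld K x)[X], ι (s (Polynomial.aeval w G)) = (G.map φ).eval (ι (s w)) := by
      intro G
      rw [aeval_def, eval_map]
      exact Polynomial.hom_eval₂ G (algebraMap (Fld K x) (AlgebraicClosure K))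
        (ι.comp (s : AlgebraicClosure K →+* AlgebraicClosure K)) w
    have hcφ : ι (s (c : AlgebraicClosure K)) = φ c := rfl
    have heq : (φ c) ^ 2 * (ι (s w)) ^ n + 2 * φ c * (S.map φ).eval (ι (s w)) +
        (E.map φ).eval (ι (s w)) = 0 := by
      have h := congrArg (fun a => ι (s a)) hweq
      simp only [map_add, map_mul, map_pow, map_zero, map_ofNat] at h
      rw [hmap, hmap, hcφ] at h
      exact h
    have hbS : ∀ i, ‖(S.map φ).coeff i‖ ≤ C := fun i => by
      rw [coeff_map]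
      exact (hC1 (res x s) i).trans ((le_max_left _ _).trans (le_max_right _ _))
    have hbE : ∀ i, ‖(E.map φ).coeff i‖ ≤ C := fun i => by
      rw [coeff_map]
      exact (hC2 (res x s) i).trans ((le_max_right _ _).trans (le_max_right _ _))
    have h := root_norm hn1 hC1' hbS hbE ((natDegree_map_le).trans hS1) ((natDegree_map_le).trans hE1)
      (by rw [coeff_map, hS0, map_one]) (norm_two_p p hp3) (c := φ c) (w := ι (s w))
      (by rw [hcn]; exact lt_of_le_of_lt (le_max_left _ _) hm2) heq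
    rw [hcn] at h
    refine ⟨h.1, ?_⟩
    have e : ι (s y) = (S.map φ).eval (ι (s w)) + (E.map φ).eval (ι (s w)) / φ c := by
      rw [hy, map_add, map_add, map_div₀, map_div₀, hmap, hmap, hcφ]
    rw [e]
    exact h.2
  have hsmall : ∀ s : AlgebraicClosure K ≃ₐ[K] AlgebraicClosure K, ‖ι (s w)‖ < δ / C := by
    intro s
    by_contra hcon
    push Not at hcon
    have h1 := (hsize s).1
    have h2 : (δ / C) ^ n ≤ ‖ι (s w)‖ ^ n := pow_le_pow_left₀ (by positivity) hcon n
    have h3 : ((δ / C) ^ n)⁻¹ < (p : ℝ) ^ m := lt_of_le_of_lt (le_max_right _ _) hm2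
    have h4 : 0 < (δ / C) ^ n := by positivity
    have h5 : 1 < (p : ℝ) ^ m * (δ / C) ^ n := by
      rw [inv_lt_iff_one_lt_mul₀ h4] at h3
      linarith
    have h6 : (p : ℝ) ^ m * (δ / C) ^ n ≤ (p : ℝ) ^ m * ‖ι (s w)‖ ^ n :=
      mul_le_mul_of_nonneg_left h2 (by positivity)
    linarith
  have hcurve : y ^ 2 = Polynomial.aeval w F := by
    have h1 : (S.map (algebraMap (Fld K x) (AlgebraicClosure K))) ^ 2 -
        F.map (algebraMap (Fld K x) (AlgebraicClosure K)) =
        X ^ n * E.map (algebraMap (Fld K x) (AlgebraicClosure K)) := by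
      rw [← Polynomial.map_pow, ← Polynomial.map_sub, hSE, Polynomial.map_mul, Polynomial.map_pow,
        Polynomial.map_X]
    have h2 := curve_identity h1 hc0' (w := w) (by
      rw [eval_map_algebraMap, eval_map_algebraMap]
      exact hweq)
    rw [eval_map_algebraMap, eval_map_algebraMap, eval_map_algebraMap] at h2
    exact h2
  have hz := hnear w y (fun s => lt_of_lt_of_le (hsmall s) (div_le_self hδ.le hC1')) (fun s => by
    refine lt_of_le_of_lt (hsize s).2 ?_
    have := hsmall s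
    rw [lt_div_iff₀ hC0] at this
    linarith) _ (fun j => rfl)
  obtain ⟨hz1, hz2, hz3, hz4⟩ := hz
  refine ⟨w, y, hcurve, hz1, ?_, hz2⟩
  have hwM : w ∈ IntermediateField.adjoin (Fld K x) {w} :=
    IntermediateField.mem_adjoin_simple_self _ w
  have hyM : y ∈ IntermediateField.adjoin (Fld K x) {w} := by
    refine add_mem (aeval_mem'' _ hwM _) (div_mem (aeval_mem'' _ hwM _) ?_)
    exact (IntermediateField.adjoin (Fld K x) {w}).algebraMap_mem c
  refine ptDeg_eq x _ (fld_eq x _ (fun j => ?_) hz4 (fun M hM => ?_))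
    (finrank_eq x hn1 hm1 ι hι (fun s => (hsize s).1) hq0 hqn hw)
  · have hv : ∀ i, ![w, y] i ∈ IntermediateField.adjoin (Fld K x) {w} := by
      intro i
      fin_cases i
      · exact hwM
      · exact hyM
    exact div_mem (aeval_mem' _ hv _) (aeval_mem' _ hv _)
  · have h1 := hU w y hcurve hz1
    have h2 : w = MvPolynomial.aeval
          (fun j => MvPolynomial.aeval ![w, y] (A j) / MvPolynomial.aeval ![w, y] D) U /
        MvPolynomial.aeval
          (fun j => MvPolynomial.aeval ![w, y] (A j) / MvPolynomial.aeval ![w, y] D) V := by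
      rw [eq_div_iff hz3, h1]
    rw [h2]
    exact div_mem (aeval_mem' _ hM _) (aeval_mem' _ hM _)

end Pool.Agent.DDS
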