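import Pool.Agent.Helper12_DDS.SchOpen
import Pool.Agent.Helper12_DDS.Defs

/-!
# Closed points of given degree on affine schemes
-/

set_option autoImplicit false

open AlgebraicGeometry CategoryTheory

noncomputable section

namespace Pool.Agent.DDS

variable {k : Type} [Field k]

theorem denseClosed_open {U X : Scheme.{0}} [JacobsonSpace X] [IrreducibleSpace X] [Nonempty U]
    (j : U ⟶ X) [IsOpenImmersion j] (f : X ⟶ Spec (CommRingCat.of k)) (d : ℕ) :
    DenseClosed (j ≫ f) d ↔ DenseClosed f d := by
  have hj : Topology.IsOpenEmbedding j := j.isOpenEmbedding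
  have hcl : ∀ u : U, IsClosed ({u} : Set U) ↔ IsClosed ({j u} : Set X) := by
    intro u
    have h := hj.preimage_closedPoints
    have h2 : u ∈ closedPoints U ↔ j u ∈ closedPoints X := by
      rw [← h]
      rfl
    exact h2
  constructor
  · intro h
    rw [DenseClosed, dense_iff_inter_open]
    intro V hV hVne
    have h1 : (V ∩ Set.range j).Nonempty := by
      have hirr := (inferInstance : IrreducibleSpace X)
      exact nonempty_preirreducible_inter hV hj.isOpen_range hVne (Set.range_nonempty _)
    obtain ⟨_, hv, u0, rfl⟩ := h1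
    obtain ⟨u, hu1, hu2, hu3⟩ := (dense_iff_inter_open.1 h) (j ⁻¹' V) (hV.preimage hj.continuous)
      ⟨u0, hv⟩
    exact ⟨j u, hu1, (hcl u).1 hu2, by rw [← degAt_open]; exact hu3⟩
  · intro h
    rw [DenseClosed, dense_iff_inter_open]
    intro V hV hVne
    obtain ⟨x, hx1, hx2, hx3⟩ := (dense_iff_inter_open.1 h) (j '' V) (hj.isOpenMap V hV)
      (hVne.image j)
    obtain ⟨u, hu, rfl⟩ := hx1
    exact ⟨u, hu, (hcl u).2 hx2, by rw [degAt_open]; exact hx3⟩

lemma finrank_toModule (B : Type) [CommRing B] [Algebra k B] :
    @Module.finrank k B _ _ (algebraMap k B).toModule = Module.finrank k B := by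
  have h : (algebraMap k B).toModule = (Algebra.toModule : Module k B) :=
    Module.ext' _ _ fun c x => (Algebra.smul_def c x).symm
  rw [h]

lemma degAt_spec (A : Type) [CommRing A] [Algebra k A] (x : Spec (CommRingCat.of A))
    (hx : x.asIdeal.IsMaximal) :
    degAt (Spec.map (CommRingCat.ofHom (algebraMap k A))) x =
      Module.finrank k (A ⧸ x.asIdeal) := by
  have h1 : degAt (Spec.map (CommRingCat.ofHom (algebraMap k A))) x =
      @Module.finrank k x.asIdeal.ResidueField _ _
        ((algebraMap A x.asIdeal.ResidueField).comp (algebraMap k A)).toModule := by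
    refine finrank_congr _ _
      (Scheme.Spec.residueFieldIso (CommRingCat.of A) x).commRingCatIsoToRingEquiv ?_
    intro a
    have h2 : ((Scheme.ΓSpecIso (CommRingCat.of k)).inv ≫
        (Spec.map (CommRingCat.ofHom (algebraMap k A))).appTop ≫
        (Spec (CommRingCat.of A)).presheaf.germ ⊤ x trivial ≫
        (Spec (CommRingCat.of A)).residue x) ≫
        (Scheme.Spec.residueFieldIso (CommRingCat.of A) x).hom =
        CommRingCat.ofHom (algebraMap k A) ≫
          CommRingCat.ofHom (algebraMap A x.asIdeal.ResidueField) := by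
      have h3 := Scheme.Spec.algebraMap_residueFieldIso_inv (CommRingCat.of A) x
      have h4 := Scheme.ΓSpecIso_inv_naturality (CommRingCat.ofHom (algebraMap k A))
      rw [← Category.assoc (Scheme.ΓSpecIso (CommRingCat.of k)).inv, ← h4]
      simp only [Category.assoc]
      rw [← reassoc_of% h3]
      simp
    exact congrArg (fun g => g.hom a) h2
  have h5 := finrank_congr (algebraMap k (A ⧸ x.asIdeal))
    ((algebraMap A x.asIdeal.ResidueField).comp (algebraMap k A))
    (RingEquiv.ofBijective _ x.asIdeal.bijective_algebraMap_quotient_residueField) (fun a => rfl)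
  rw [h1, ← h5, finrank_toModule]

end Pool.Agent.DDS
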