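import Mathlib

/-!
# Birational schemes over a field and double covers: definitions
-/

set_option autoImplicit false

open AlgebraicGeometry CategoryTheory Polynomial

noncomputable section

namespace Pool.Agent.DDS

/-- Two schemes over `k` are birational over `k`: they have isomorphic nonempty open subschemes,
that is, a nonempty scheme `U` with open immersions into both, compatible with the structure
morphisms. -/
def Birational {k : Type} [Field k] {X Y : Scheme.{0}} (f : X ⟶ Spec (CommRingCat.of k))
    (g : Y ⟶ Spec (CommRingCat.of k)) : Prop :=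
  ∃ (U : Scheme.{0}) (i : U ⟶ X) (j : U ⟶ Y), Nonempty U ∧ IsOpenImmersion i ∧
    IsOpenImmersion j ∧ i ≫ f = j ≫ g

/-- The ideal of the double cover `y ^ 2 = f (s, t)` over the zero set of `I` (variables
`s = inl _`, `t = inr 0`, `y = inr 1`). -/
def coverIdeal {k : Type} [Field k] {r : ℕ} (I : Set (MvPolynomial (Fin r) k))
    (f : (MvPolynomial (Fin r) k)[X]) : Ideal (MvPolynomial (Fin r ⊕ Fin 2) k) :=
  Ideal.span (MvPolynomial.rename Sum.inl '' I ∪
    {MvPolynomial.X (Sum.inr 1) ^ 2 -
      f.eval₂ (MvPolynomial.rename (R := k) Sum.inl).toRingHom (MvPolynomial.X (Sum.inr 0))})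

end Pool.Agent.DDS
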