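import Pool.Agent.Helper12_DDS.SchPts
import Pool.Agent.Helper12_DDS.SchDefs

/-!
# Birational invariance
-/

set_option autoImplicit false

open AlgebraicGeometry CategoryTheory

noncomputable section

namespace Pool.Agent.DDS

variable {k : Type} [Field k] {T : Type} [Finite T]

theorem mem_of_vanish (J : Ideal (MvPolynomial T k)) (hJ : J.IsPrime) {P : MvPolynomial T k}
    (h : ∀ x ∈ Zeros k (J : Set (MvPolynomial T k)), MvPolynomial.aeval x P = 0) : P ∈ J := by
  by_contra hP
  have hdom : IsDomain (MvPolynomial T k ⧸ J) := Ideal.Quotient.isDomain J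
  have hne : Ideal.Quotient.mk J P ≠ 0 := fun h0 => hP (Ideal.Quotient.eq_zero_iff_mem.1 h0)
  have hJac : IsJacobsonRing (MvPolynomial T k ⧸ J) := inferInstance
  have hbot : (⊥ : Ideal (MvPolynomial T k ⧸ J)).jacobson = ⊥ :=
    hJac.out (Ideal.isPrime_bot.isRadical)
  have hex : ∃ m : Ideal (MvPolynomial T k ⧸ J), m.IsMaximal ∧ Ideal.Quotient.mk J P ∉ m := by
    by_contra hcon
    push Not at hcon
    apply hne
    have : Ideal.Quotient.mk J P ∈ (⊥ : Ideal (MvPolynomial T k ⧸ J)).jacobson := by
      rw [Ideal.jacobson, Ideal.mem_sInf]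
      intro m hm
      exact hcon m hm.2
    rw [hbot] at this
    exact this
  obtain ⟨m, hm, hPm⟩ := hex
  let xm : Spec (CommRingCat.of (MvPolynomial T k ⧸ J)) := ⟨m, hm.isPrime⟩
  obtain ⟨y0, hy0, -, hy1⟩ := exists_point_of_closed J xm
    ((PrimeSpectrum.isClosed_singleton_iff_isMaximal _).2 hm)
  exact hPm ((hy1 P).2 (h y0 hy0))

theorem irred_zeros (J : Ideal (MvPolynomial T k)) (hJ : J.IsPrime) :
    Irred k (Zeros k (J : Set (MvPolynomial T k))) := by
  constructor
  · by_contra hcon
    rw [Set.not_nonempty_iff_eq_empty] at hcon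
    have h1 : (1 : MvPolynomial T k) ∈ J := mem_of_vanish J hJ fun x hx => by
      rw [hcon] at hx
      exact absurd hx (Set.notMem_empty x)
    exact hJ.ne_top (Ideal.eq_top_of_isUnit_mem _ h1 isUnit_one)
  · intro P Q h
    rcases hJ.mem_or_mem (mem_of_vanish J hJ h) with h1 | h1
    · exact Or.inl fun x hx => hx P h1
    · exact Or.inr fun x hx => hx Q h1

theorem denseClosed_birational {X : Scheme.{0}} [IrreducibleSpace X]
    (f : X ⟶ Spec (CommRingCat.of k)) [LocallyOfFiniteType f] (J : Ideal (MvPolynomial T k))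
    (hJ : J.IsPrime) (hbir : Birational f (affStr J)) (d : ℕ) :
    DenseClosed f d ↔ DenseDeg k (Zeros k (J : Set (MvPolynomial T k))) d := by
  obtain ⟨U, i, j, hU, hi, hj, hij⟩ := hbir
  have hJX : JacobsonSpace X := LocallyOfFiniteType.jacobsonSpace f
  have hdom : IsDomain (MvPolynomial T k ⧸ J) := Ideal.Quotient.isDomain J
  have hJY : JacobsonSpace (Spec (CommRingCat.of (MvPolynomial T k ⧸ J))) := inferInstance
  have hirr : IrreducibleSpace (Spec (CommRingCat.of (MvPolynomial T k ⧸ J))) := inferInstance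
  rw [← denseClosed_open i f, hij, denseClosed_open j (affStr J), denseClosed_affine J hJ]

end Pool.Agent.DDS
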