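import Mathlib

/-!
# Closed points of given degree: passage to open subschemes
-/

set_option autoImplicit false

open AlgebraicGeometry CategoryTheory

noncomputable section

namespace Pool.Agent.DDS

/-- The degree over `k` of the residue field at a point of a `k`-scheme. -/
def degAt {k : Type} [Field k] {X : Scheme.{0}} (f : X ⟶ Spec (CommRingCat.of k)) (x : X) : ℕ :=
  @Module.finrank k (X.residueField x) _ _
    (((Scheme.ΓSpecIso (CommRingCat.of k)).inv ≫ f.appTop ≫
      X.presheaf.germ ⊤ x trivial ≫ X.residue x).hom.toModule)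

/-- The closed points of degree `d` are Zariski dense. -/
def DenseClosed {k : Type} [Field k] {X : Scheme.{0}} (f : X ⟶ Spec (CommRingCat.of k))
    (d : ℕ) : Prop :=
  Dense {x : X | IsClosed ({x} : Set X) ∧ degAt f x = d}

lemma finrank_congr {k K1 K2 : Type} [Field k] [CommRing K1] [CommRing K2] (φ : k →+* K1)
    (ψ : k →+* K2) (e : K1 ≃+* K2) (h : ∀ a, e (φ a) = ψ a) :
    @Module.finrank k K1 _ _ φ.toModule = @Module.finrank k K2 _ _ ψ.toModule := by
  letI := φ.toModule
  letI := ψ.toModule
  refine LinearEquiv.finrank_eq (R := k) ⟨⟨⟨e, e.map_add⟩, fun c x => ?_⟩, e.symm, e.left_inv,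
    e.right_inv⟩
  change e (φ c * x) = ψ c * e x
  rw [map_mul, h]

variable {k : Type} [Field k]

lemma degAt_open {U X : Scheme.{0}} (j : U ⟶ X) [IsOpenImmersion j]
    (f : X ⟶ Spec (CommRingCat.of k)) (u : U) : degAt (j ≫ f) u = degAt f (j u) := by
  symm
  refine finrank_congr _ _ (asIso (j.residueFieldMap u)).commRingCatIsoToRingEquiv ?_
  intro a
  have h := Scheme.Γevaluation_naturality j u
  have h2 : ((Scheme.ΓSpecIso (CommRingCat.of k)).inv ≫ f.appTop ≫
      X.presheaf.germ ⊤ (j u) trivial ≫ X.residue (j u)) ≫ j.residueFieldMap u =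
      (Scheme.ΓSpecIso (CommRingCat.of k)).inv ≫ (j ≫ f).appTop ≫
      U.presheaf.germ ⊤ u trivial ≫ U.residue u := by
    simp only [Category.assoc]
    rw [Scheme.Hom.comp_appTop]
    simp only [Category.assoc]
    congr 2
  have h3 := congrArg (fun g => g.hom a) h2
  exact h3

end Pool.Agent.DDS
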