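import Pool.Agent.Helper12_DDS.SchAff

/-!
# Closed points of affine schemes and points with algebraic coordinates
-/

set_option autoImplicit false

open AlgebraicGeometry CategoryTheory

noncomputable section

namespace Pool.Agent.DDS

variable {k : Type} [Field k] {T : Type} [Finite T] (J : Ideal (MvPolynomial T k))

/-- the structure morphism of the affine scheme defined by an ideal -/
abbrev affStr : Spec (CommRingCat.of (MvPolynomial T k ⧸ J)) ⟶ Spec (CommRingCat.of k) :=
  Spec.map (CommRingCat.ofHom (algebraMap k (MvPolynomial T k ⧸ J)))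

omit [Finite T] in
lemma finrank_ker (s : (MvPolynomial T k ⧸ J) →ₐ[k] AlgebraicClosure k) :
    Module.finrank k ((MvPolynomial T k ⧸ J) ⧸ RingHom.ker s) =
      ptDeg k (fun j => s (Ideal.Quotient.mk J (MvPolynomial.X j))) := by
  have h1 := (Ideal.quotientKerEquivRange s).toLinearEquiv.finrank_eq
  have h2 : (Fld k (fun j => s (Ideal.Quotient.mk J (MvPolynomial.X j)))).toSubalgebra =
      s.range := by
    rw [IntermediateField.adjoin_toSubalgebra_of_isAlgebraic
      (fun x _ => Algebra.IsAlgebraic.isAlgebraic x), Algebra.adjoin_range_eq_range_aeval]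
    have h3 : (MvPolynomial.aeval fun j => s (Ideal.Quotient.mk J (MvPolynomial.X j))) =
        s.comp (Ideal.Quotient.mkₐ k J) := by
      apply MvPolynomial.algHom_ext
      intro i
      simp
    rw [h3]
    apply le_antisymm
    · rintro _ ⟨a, rfl⟩
      exact ⟨_, rfl⟩
    · rintro _ ⟨a, rfl⟩
      obtain ⟨b, rfl⟩ := Ideal.Quotient.mk_surjective a
      exact ⟨b, rfl⟩
  rw [h1, ptDeg, ← h2]
  rfl

omit [Finite T] in
lemma ker_isMaximal (s : (MvPolynomial T k ⧸ J) →ₐ[k] AlgebraicClosure k) :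
    (RingHom.ker s).IsMaximal := by
  have h1 : IsField s.range := Subalgebra.isField_of_algebraic s.range
  refine Ideal.Quotient.maximal_of_isField _ ?_
  exact (Ideal.quotientKerEquivRange s).toMulEquiv.isField h1

omit [Finite T] in
lemma exists_closedPoint {y : T → AlgebraicClosure k} (hy : y ∈ Zeros k (J : Set _)) :
    ∃ x : Spec (CommRingCat.of (MvPolynomial T k ⧸ J)), IsClosed ({x} : Set _) ∧
      degAt (affStr J) x = ptDeg k y ∧
      ∀ Q : MvPolynomial T k, Ideal.Quotient.mk J Q ∈ x.asIdeal ↔ MvPolynomial.aeval y Q = 0 := by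
  set s : (MvPolynomial T k ⧸ J) →ₐ[k] AlgebraicClosure k :=
    Ideal.Quotient.liftₐ J (MvPolynomial.aeval y) (fun a ha => hy a ha) with hs
  have hmax := ker_isMaximal J s
  let x : Spec (CommRingCat.of (MvPolynomial T k ⧸ J)) := ⟨RingHom.ker s, hmax.isPrime⟩
  have hval : ∀ Q : MvPolynomial T k, s (Ideal.Quotient.mk J Q) = MvPolynomial.aeval y Q :=
    fun Q => rfl
  refine ⟨x, (PrimeSpectrum.isClosed_singleton_iff_isMaximal _).2 hmax, ?_, fun Q => ?_⟩
  · rw [degAt_spec _ x hmax]
    refine (finrank_ker J s).trans ?_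
    congr 1
    funext j
    rw [hval, MvPolynomial.aeval_X]
  · rw [← hval]
    exact RingHom.mem_ker

lemma exists_point_of_closed (x : Spec (CommRingCat.of (MvPolynomial T k ⧸ J)))
    (hx : IsClosed ({x} : Set _)) :
    ∃ y ∈ Zeros k (J : Set _), ptDeg k y = degAt (affStr J) x ∧
      ∀ Q : MvPolynomial T k, Ideal.Quotient.mk J Q ∈ x.asIdeal ↔ MvPolynomial.aeval y Q = 0 := by
  have hmax : x.asIdeal.IsMaximal := (PrimeSpectrum.isClosed_singleton_iff_isMaximal _).1 hx
  let B := (MvPolynomial T k ⧸ J) ⧸ x.asIdeal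
  let : Field B := Ideal.Quotient.field x.asIdeal
  have hft : Algebra.FiniteType k B := inferInstance
  have hfin : Module.Finite k B := finite_of_finite_type_of_isJacobsonRing k B
  have halg : Algebra.IsAlgebraic k B := inferInstance
  have htf : Module.IsTorsionFree k B :=
    Module.isTorsionFree_iff_algebraMap_injective.2 (algebraMap k B).injective
  let t : B →ₐ[k] AlgebraicClosure k := IsAlgClosed.lift
  let s : (MvPolynomial T k ⧸ J) →ₐ[k] AlgebraicClosure k :=
    t.comp (Ideal.Quotient.mkₐ k x.asIdeal)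
  have hker : RingHom.ker s = x.asIdeal := by
    ext a
    rw [RingHom.mem_ker]
    change t (Ideal.Quotient.mk x.asIdeal a) = 0 ↔ _
    rw [map_eq_zero]
    exact Ideal.Quotient.eq_zero_iff_mem
  set y : T → AlgebraicClosure k := fun j => s (Ideal.Quotient.mk J (MvPolynomial.X j)) with hy
  have hval : ∀ Q : MvPolynomial T k, MvPolynomial.aeval y Q = s (Ideal.Quotient.mk J Q) := by
    intro Q
    have h3 : (MvPolynomial.aeval y) = s.comp (Ideal.Quotient.mkₐ k J) := by
      apply MvPolynomial.algHom_ext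
      intro i
      simp [hy]
    rw [h3]
    rfl
  refine ⟨y, fun P hP => ?_, ?_, fun Q => ?_⟩
  · rw [hval, Ideal.Quotient.eq_zero_iff_mem.2 hP, map_zero]
  · rw [degAt_spec _ x hmax, ← finrank_ker J s, hker]
  · rw [hval, ← hker]
    exact RingHom.mem_ker

theorem denseClosed_affine (hJ : J.IsPrime) (d : ℕ) :
    DenseClosed (affStr J) d ↔ DenseDeg k (Zeros k (J : Set (MvPolynomial T k))) d := by
  constructor
  · intro h P hP
    obtain ⟨y0, hy0, hy1⟩ := hP
    obtain ⟨x0, -, -, hx0⟩ := exists_closedPoint J hy0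
    obtain ⟨x, hx1, hx2, hx3⟩ := (dense_iff_inter_open.1 h)
      (PrimeSpectrum.basicOpen (Ideal.Quotient.mk J P) :
        Set (PrimeSpectrum (MvPolynomial T k ⧸ J))) (PrimeSpectrum.basicOpen _).2
      ⟨x0, fun hmem => hy1 ((hx0 P).1 hmem)⟩
    obtain ⟨y, hy, hy2, hy3⟩ := exists_point_of_closed J x hx2
    exact ⟨y, hy, hy2.trans hx3, fun h0 => hx1 ((hy3 P).2 h0)⟩
  · intro h
    rw [DenseClosed, dense_iff_inter_open]
    intro V hV hVne
    obtain ⟨x0, hx0⟩ := hVne
    obtain ⟨_, ⟨a, rfl⟩, ha1, ha2⟩ :=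
      PrimeSpectrum.isTopologicalBasis_basic_opens.exists_subset_of_mem_open hx0 hV
    obtain ⟨P, rfl⟩ := Ideal.Quotient.mk_surjective a
    -- a closed point in the basic open set
    have hdom : IsDomain (MvPolynomial T k ⧸ J) := Ideal.Quotient.isDomain J
    have hne : Ideal.Quotient.mk J P ≠ 0 := by
      intro h0
      apply ha1
      rw [h0]
      exact Ideal.zero_mem _
    have hJac : IsJacobsonRing (MvPolynomial T k ⧸ J) := inferInstance
    have hbot : (⊥ : Ideal (MvPolynomial T k ⧸ J)).jacobson = ⊥ :=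
      hJac.out (Ideal.isPrime_bot.isRadical)
    have hex : ∃ m : Ideal (MvPolynomial T k ⧸ J), m.IsMaximal ∧ Ideal.Quotient.mk J P ∉ m := by
      by_contra hcon
      push Not at hcon
      apply hne
      have : Ideal.Quotient.mk J P ∈ (⊥ : Ideal (MvPolynomial T k ⧸ J)).jacobson := by
        rw [Ideal.jacobson, Ideal.mem_sInf]
        intro m hm
        exact hcon m hm.2
      rw [hbot] at this
      exact this
    obtain ⟨m, hm, hPm⟩ := hex
    let xm : Spec (CommRingCat.of (MvPolynomial T k ⧸ J)) := ⟨m, hm.isPrime⟩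
    obtain ⟨y0, hy0, -, hy1⟩ := exists_point_of_closed J xm
      ((PrimeSpectrum.isClosed_singleton_iff_isMaximal _).2 hm)
    obtain ⟨y, hy, hyd, hyP⟩ := h P ⟨y0, hy0, fun h0 => hPm ((hy1 P).2 h0)⟩
    obtain ⟨x, hx1, hx2, hx3⟩ := exists_closedPoint J hy
    exact ⟨x, ha2 fun hmem => hyP ((hx3 P).1 hmem), hx1, hx2.trans hyd⟩

end Pool.Agent.DDS
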