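import Pool.Agent.Helper12_DDS.Cover2

/-!
# Points of twice the degree on double covers
-/

set_option autoImplicit false

noncomputable section

namespace Pool.Agent.DDS

open Polynomial Filter Topology

lemma exists_punctured {W : Type*} [Field W] {p : ℕ} [Fact p.Prime] (ι : W →+* PadicAlgCl p)
    (ρ : W) {N : W[X]} (hN : N ≠ 0) :
    ∃ δ > 0, ∀ t : W, t ≠ ρ → ‖ι t - ι ρ‖ < δ → N.eval t ≠ 0 := by
  classical
  have hev : ∀ᶠ ε in 𝓝[>] (0 : ℝ), ∀ u : {u // u ∈ N.roots.toFinset}, u.1 ≠ ρ →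
      ε ≤ ‖ι u.1 - ι ρ‖ := by
    rw [Filter.eventually_all]
    intro u
    by_cases h : u.1 = ρ
    · exact Filter.Eventually.of_forall fun ε h' => absurd h h'
    · have hpos : 0 < ‖ι u.1 - ι ρ‖ := by
        rw [norm_pos_iff, sub_ne_zero]
        exact fun h' => h (ι.injective h')
      filter_upwards [Ioo_mem_nhdsGT hpos] with ε hε _
      exact hε.2.le
  obtain ⟨ε, h3, h4⟩ := (hev.and self_mem_nhdsWithin).exists
  refine ⟨ε, h4, fun t ht htε h0 => ?_⟩
  have h5 := h3 ⟨t, by
    rw [Multiset.mem_toFinset]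
    exact (mem_roots hN).2 h0⟩ ht
  exact absurd h5 (not_le.2 htε)

lemma exists_norm_eq {W : Type*} [Field W] {p : ℕ} [Fact p.Prime] (ι : W →+* PadicAlgCl p)
    (ρ : W) {H : W[X]} (hH : H.eval ρ ≠ 0) :
    ∃ δ > 0, ∀ t : W, ‖ι t - ι ρ‖ < δ → ‖ι (H.eval t)‖ = ‖ι (H.eval ρ)‖ := by
  have hm : ∀ t : W, ι (H.eval t) = (H.map ι).eval (ι t) := by
    intro t
    rw [eval_map, eval₂_at_apply]
  have hpos : 0 < ‖ι (H.eval ρ)‖ := by
    rw [norm_pos_iff]
    exact fun h => hH ((map_eq_zero ι).1 h)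
  have hc : ContinuousAt (fun u : PadicAlgCl p => ‖(H.map ι).eval u - ι (H.eval ρ)‖) (ι ρ) :=
    (((H.map ι).continuous.sub continuous_const).norm).continuousAt
  have hlt : ‖(H.map ι).eval (ι ρ) - ι (H.eval ρ)‖ < ‖ι (H.eval ρ)‖ := by
    rw [← hm, sub_self, norm_zero]
    exact hpos
  obtain ⟨δ, hδ, h1⟩ := Metric.eventually_nhds_iff.1
    (hc.eventually_lt continuousAt_const hlt)
  refine ⟨δ, hδ, fun t ht => ?_⟩
  have h2 := h1 (y := ι t) (by rw [dist_eq_norm]; exact ht)
  rw [← hm] at h2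
  have e : ι (H.eval t) = (ι (H.eval t) - ι (H.eval ρ)) + ι (H.eval ρ) := by ring
  rw [e, IsUltrametricDist.norm_add_eq_max_of_norm_ne_norm h2.ne, max_eq_right h2.le]

variable {K : Type} [Field K] {r : ℕ}

/-- the point with the same base coordinates -/
def pt (x : Fin r ⊕ Fin 2 → AlgebraicClosure K) (t y : AlgebraicClosure K) :
    Fin r ⊕ Fin 2 → AlgebraicClosure K :=
  Sum.elim (fun i => x (Sum.inl i)) ![t, y]

lemma pt_self (x : Fin r ⊕ Fin 2 → AlgebraicClosure K) :
    pt x (x (Sum.inr 0)) (x (Sum.inr 1)) = x := by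
  funext i
  rcases i with i | i
  · rfl
  · fin_cases i <;> rfl

lemma pt_mem {I : Set (MvPolynomial (Fin r) K)} {f : (MvPolynomial (Fin r) K)[X]}
    {x : Fin r ⊕ Fin 2 → AlgebraicClosure K} (hx : x ∈ DoubleCover K I f)
    {t y : AlgebraicClosure K} (h : y ^ 2 = Polynomial.aeval t (FL x f)) :
    pt x t y ∈ DoubleCover K I f := by
  refine ⟨hx.1, ?_⟩
  rw [aeval_FL] at h
  exact h

/-- reduction of a polynomial in `s, t, y` modulo the equation -/
lemma exists_ab (x : Fin r ⊕ Fin 2 → AlgebraicClosure K) (f : (MvPolynomial (Fin r) K)[X])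
    (Q : MvPolynomial (Fin r ⊕ Fin 2) K) :
    ∃ a b : (Fld K x)[X], ∀ t y : AlgebraicClosure K, y ^ 2 = Polynomial.aeval t (FL x f) →
      MvPolynomial.aeval (pt x t y) Q = Polynomial.aeval t a + Polynomial.aeval t b * y := by
  induction Q using MvPolynomial.induction_on with
  | C c =>
    refine ⟨C (algebraMap K (Fld K x) c), 0, fun t y _ => ?_⟩
    simp only [MvPolynomial.aeval_C, Polynomial.aeval_C, map_zero, zero_mul, add_zero]
    rfl
  | add P Q hP hQ =>
    obtain ⟨a, b, h1⟩ := hP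
    obtain ⟨a', b', h2⟩ := hQ
    refine ⟨a + a', b + b', fun t y h => ?_⟩
    rw [map_add, h1 t y h, h2 t y h, map_add, map_add]
    ring
  | mul_X P i hP =>
    obtain ⟨a, b, h1⟩ := hP
    rcases i with i | i
    · refine ⟨C ⟨x (Sum.inl i), mem_Fld x _⟩ * a, C ⟨x (Sum.inl i), mem_Fld x _⟩ * b,
        fun t y h => ?_⟩
      rw [map_mul, h1 t y h, MvPolynomial.aeval_X, map_mul, map_mul, Polynomial.aeval_C]
      have e : algebraMap (Fld K x) (AlgebraicClosure K) ⟨x (Sum.inl i), mem_Fld x _⟩ =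
        pt x t y (Sum.inl i) := rfl
      rw [e]
      ring
    · fin_cases i
      · refine ⟨X * a, X * b, fun t y h => ?_⟩
        rw [map_mul, h1 t y h, MvPolynomial.aeval_X, map_mul, map_mul, Polynomial.aeval_X]
        have e : pt x t y (Sum.inr 0) = t := rfl
        simp only [Fin.zero_eta, e]
        ring
      · refine ⟨b * FL x f, a, fun t y h => ?_⟩
        rw [map_mul, h1 t y h, MvPolynomial.aeval_X, map_mul, ← h]
        have e : pt x t y (Sum.inr 1) = y := rfl
        simp only [Fin.mk_one, e]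
        ring

/-- a field containing the primitive element contains everything -/
lemma le_of_primitive {K W : Type*} [Field K] [Field W] [Algebra K W] {L M : IntermediateField K W}
    {α : L} (hα : IntermediateField.adjoin K {α} = ⊤) (h : (α : W) ∈ M) : L ≤ M := by
  have h1 : IntermediateField.adjoin K {α} ≤ M.comap L.val := by
    rw [IntermediateField.adjoin_le_iff]
    rintro _ rfl
    exact h
  rw [hα] at h1
  intro a ha
  exact h1 (IntermediateField.mem_top : (⟨a, ha⟩ : L) ∈ ⊤)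

theorem norm_poly_ne_zero {W : Type*} [Field W] {a b F : W[X]} {ρ : W}
    (hρ : Odd (F.rootMultiplicity ρ)) (hab : a ≠ 0 ∨ b ≠ 0) : a ^ 2 - b ^ 2 * F ≠ 0 := by
  intro h0
  have hF : F ≠ 0 := by
    intro h
    rw [h] at hρ
    simp at hρ
  have h1 : a * a = b * b * F := by linear_combination h0
  by_cases hb : b = 0
  · rw [hb] at h1
    simp only [zero_mul, mul_self_eq_zero] at h1
    rcases hab with h | h
    · exact h h1
    · exact h hb
  have ha : a ≠ 0 := by
    intro h
    rw [h, mul_zero] at h1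
    exact mul_ne_zero (mul_ne_zero hb hb) hF h1.symm
  have h2 := congrArg (rootMultiplicity ρ) h1
  rw [rootMultiplicity_mul (mul_ne_zero ha ha),
    rootMultiplicity_mul (mul_ne_zero (mul_ne_zero hb hb) hF),
    rootMultiplicity_mul (mul_ne_zero hb hb)] at h2
  obtain ⟨k, hk⟩ := hρ
  omega

theorem two_step [NumberField K] {I : Set (MvPolynomial (Fin r) K)}
    {f : (MvPolynomial (Fin r) K)[X]}
    {x : Fin r ⊕ Fin 2 → AlgebraicClosure K} (hx : x ∈ DoubleCover K I f) {ρ : AlgebraicClosure K}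
    (hρ : Odd (((FL x f).map (algebraMap (Fld K x) (AlgebraicClosure K))).rootMultiplicity ρ))
    (Q : MvPolynomial (Fin r ⊕ Fin 2) K) (hQ : MvPolynomial.aeval x Q ≠ 0) :
    ∃ z ∈ DoubleCover K I f, ptDeg K z = ptDeg K x * 2 ∧ MvPolynomial.aeval z Q ≠ 0 := by
  classical
  -- the field of the root
  have hintρ : IsIntegral (Fld K x) ρ := Algebra.IsIntegral.isIntegral ρ
  let M1 : IntermediateField (Fld K x) (AlgebraicClosure K) :=
    IntermediateField.adjoin (Fld K x) {ρ}
  have hfd1 : FiniteDimensional (Fld K x) M1 := IntermediateField.adjoin.finiteDimensional hintρ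
  have hfd2 : FiniteDimensional K M1 := FiniteDimensional.trans K (Fld K x) M1
  have hfd3 : FiniteDimensional K (M1.restrictScalars K) := hfd2
  have hρM : ρ ∈ M1 := IntermediateField.mem_adjoin_simple_self _ ρ
  obtain ⟨p, hp, hp3, ι, hι⟩ := exists_emb K (M1.restrictScalars K) 3
  have hιM : ∀ a ∈ M1, ∃ b : ℚ_[p], ι a = algebraMap ℚ_[p] (PadicAlgCl p) b := hι
  have hιL : ∀ a : Fld K x, ∃ b : ℚ_[p], ι (algebraMap (Fld K x) (AlgebraicClosure K) a) =
      algebraMap ℚ_[p] (PadicAlgCl p) b := fun a => hιM _ (M1.algebraMap_mem a)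
  have hp1 : (1 : ℝ) < p := by exact_mod_cast hp.out.one_lt
  have hp0 : (0 : ℝ) < p := by linarith
  -- the factorisation
  set FΩ := (FL x f).map (algebraMap (Fld K x) (AlgebraicClosure K)) with hFΩ
  set FM := (FL x f).map (algebraMap (Fld K x) M1) with hFM
  have hFMΩ : FM.map (algebraMap M1 (AlgebraicClosure K)) = FΩ := by
    rw [hFM, Polynomial.map_map]
    rfl
  have hFΩ0 : FΩ ≠ 0 := by
    intro h
    rw [h] at hρ
    simp at hρ
  have hFM0 : FM ≠ 0 := by
    intro h
    rw [h, Polynomial.map_zero] at hFMΩ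
    exact hFΩ0 hFMΩ.symm
  set ρM : M1 := ⟨ρ, hρM⟩ with hρMdef
  set μ := FM.rootMultiplicity ρM with hμ
  have hμodd : Odd μ := by
    have h := eq_rootMultiplicity_map (p := FM) (f := algebraMap M1 (AlgebraicClosure K))
      (algebraMap M1 (AlgebraicClosure K)).injective ρM
    rw [hFMΩ] at h
    rw [hμ, h]
    exact hρ
  obtain ⟨H, hH1, hH2⟩ := exists_eq_pow_rootMultiplicity_mul_and_not_dvd FM hFM0 ρM
  have hH3 : H.eval ρM ≠ 0 := by
    intro h
    exact hH2 (dvd_iff_isRoot.2 h)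
  set HΩ := H.map (algebraMap M1 (AlgebraicClosure K)) with hHΩ
  have hH4 : HΩ.eval ρ = ((H.eval ρM : M1) : AlgebraicClosure K) := by
    have h := eval₂_at_apply (p := H) (algebraMap M1 (AlgebraicClosure K)) ρM
    rw [hHΩ, eval_map]
    exact h
  have hH5 : HΩ.eval ρ ≠ 0 := by
    rw [hH4]
    exact fun h => hH3 (Subtype.ext h)
  have hfac : ∀ t : AlgebraicClosure K, Polynomial.aeval t (FL x f) =
      (t - ρ) ^ μ * HΩ.eval t := by
    intro t
    have h1 : FΩ = (X - C ρ) ^ μ * HΩ := by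
      rw [← hFMΩ, hHΩ]
      conv_lhs => rw [hH1]
      rw [Polynomial.map_mul, Polynomial.map_pow, Polynomial.map_sub, map_X, map_C]
      rfl
    rw [← eval_map_algebraMap, ← hFΩ, h1]
    simp
  obtain ⟨b0, hb0⟩ := hιM _ (H.eval ρM).2
  rw [← hH4] at hb0
  have hb0' : b0 ≠ 0 := by
    intro h
    rw [h, map_zero] at hb0
    exact hH5 ((map_eq_zero ι).1 hb0)
  have hnb0 : ‖ι (HΩ.eval ρ)‖ = (p : ℝ) ^ (-b0.valuation) := by
    rw [hb0]
    have h3 : ‖(algebraMap ℚ_[p] (PadicAlgCl p)) b0‖ = ‖b0‖ := PadicAlgCl.norm_extends p b0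
    rw [h3, Padic.norm_eq_zpow_neg_valuation hb0']
  obtain ⟨δ1, hδ1, hnH⟩ := exists_norm_eq ι ρ hH5
  -- the polynomial to be avoided
  obtain ⟨a, b, hab⟩ := exists_ab x f Q
  have hab0 : a ≠ 0 ∨ b ≠ 0 := by
    by_contra hcon
    push Not at hcon
    apply hQ
    have h := hab (x (Sum.inr 0)) (x (Sum.inr 1)) (by rw [aeval_FL]; exact hx.2)
    rw [pt_self, hcon.1, hcon.2, map_zero, zero_mul, add_zero] at h
    exact h
  set aΩ := a.map (algebraMap (Fld K x) (AlgebraicClosure K)) with haΩ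
  set bΩ := b.map (algebraMap (Fld K x) (AlgebraicClosure K)) with hbΩ
  have hinj : Function.Injective (algebraMap (Fld K x) (AlgebraicClosure K)) :=
    (algebraMap (Fld K x) (AlgebraicClosure K)).injective
  have hN0 : aΩ ^ 2 - bΩ ^ 2 * FΩ ≠ 0 := by
    refine norm_poly_ne_zero hρ ?_
    rcases hab0 with h | h
    · left
      exact (Polynomial.map_ne_zero_iff hinj).2 h
    · right
      exact (Polynomial.map_ne_zero_iff hinj).2 h
  obtain ⟨δ2, hδ2, hNav⟩ := exists_punctured ι ρ hN0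
  -- the exponent
  obtain ⟨N, hN1, hN2, hN3⟩ : ∃ N : ℕ, ((p : ℝ) ^ N)⁻¹ < min δ1 δ2 ∧
      Odd ((μ : ℤ) * N + b0.valuation) ∧ 0 < (μ : ℤ) * N + b0.valuation := by
    have hmin : 0 < min δ1 δ2 := lt_min hδ1 hδ2
    obtain ⟨N1, hN1⟩ := pow_unbounded_of_one_lt (min δ1 δ2)⁻¹ hp1
    have hμ1 : 1 ≤ (μ : ℤ) := by
      obtain ⟨k, hk⟩ := hμodd
      omega
    set N2 := max N1 (b0.valuation.natAbs + 1) with hN2
    have key : ∀ N : ℕ, N2 ≤ N → ((p : ℝ) ^ N)⁻¹ < min δ1 δ2 ∧
        0 < (μ : ℤ) * N + b0.valuation := by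
      intro N hN
      constructor
      · have h1 : (p : ℝ) ^ N1 ≤ (p : ℝ) ^ N :=
          pow_le_pow_right₀ hp1.le ((le_max_left _ _).trans hN)
        rw [inv_lt_comm₀ (by positivity) hmin]
        linarith
      · have h1 : b0.valuation.natAbs + 1 ≤ N := (le_max_right _ _).trans hN
        have h2 : (N : ℤ) ≤ (μ : ℤ) * N := by nlinarith
        omega
    rcases Int.even_or_odd ((μ : ℤ) * N2 + b0.valuation) with h | h
    · refine ⟨N2 + 1, (key _ (by omega)).1, ?_, (key _ (by omega)).2⟩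
      have h1 : (μ : ℤ) * ((N2 + 1 : ℕ) : ℤ) + b0.valuation =
          ((μ : ℤ) * N2 + b0.valuation) + μ := by
        push_cast
        ring
      rw [h1]
      exact h.add_odd (by exact_mod_cast hμodd)
    · exact ⟨N2, (key _ le_rfl).1, h, (key _ le_rfl).2⟩
  -- the new parameter
  obtain ⟨α, hα⟩ := Field.exists_primitive_element K (Fld K x)
  obtain ⟨N', hN'⟩ := pow_unbounded_of_one_lt
    ‖ι (algebraMap (Fld K x) (AlgebraicClosure K) α)‖ hp1
  obtain ⟨bρ, hbρ⟩ := hιM ρ hρM
  obtain ⟨a0, ha0⟩ := Padic.rat_dense p bρ (ε := ((p : ℝ) ^ N)⁻¹) (by positivity)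
  set tL : Fld K x := (a0 : Fld K x) + (p : Fld K x) ^ N + (p : Fld K x) ^ (N + N') * α with htL
  set t : AlgebraicClosure K := algebraMap (Fld K x) (AlgebraicClosure K) tL with ht
  have htρ : ‖ι t - ι ρ‖ = ((p : ℝ) ^ N)⁻¹ := by
    have e1 : ι t - ι ρ = (p : PadicAlgCl p) ^ N +
        ((algebraMap ℚ_[p] (PadicAlgCl p) ((a0 : ℚ_[p]) - bρ)) +
          (p : PadicAlgCl p) ^ (N + N') * ι (algebraMap (Fld K x) (AlgebraicClosure K) α)) := by
      rw [ht, htL, hbρ]
      simp only [map_add, map_mul, map_pow, map_natCast, map_ratCast, map_sub]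
      ring
    have e2 : ‖(p : PadicAlgCl p) ^ N‖ = ((p : ℝ) ^ N)⁻¹ := by
      rw [norm_pow, norm_natCast_p, inv_pow]
    have e3 : ‖(algebraMap ℚ_[p] (PadicAlgCl p) ((a0 : ℚ_[p]) - bρ)) +
          (p : PadicAlgCl p) ^ (N + N') * ι (algebraMap (Fld K x) (AlgebraicClosure K) α)‖ <
          ((p : ℝ) ^ N)⁻¹ := by
      refine lt_of_le_of_lt (IsUltrametricDist.norm_add_le_max _ _) (max_lt ?_ ?_)
      · have h3 : ‖(algebraMap ℚ_[p] (PadicAlgCl p)) ((a0 : ℚ_[p]) - bρ)‖ =
            ‖(a0 : ℚ_[p]) - bρ‖ := PadicAlgCl.norm_extends p _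
        rw [h3, norm_sub_rev]
        exact ha0
      · rw [norm_mul, norm_pow, norm_natCast_p, inv_pow, pow_add, mul_inv, mul_assoc]
        refine mul_lt_of_lt_one_right (by positivity) ?_
        rw [inv_mul_lt_iff₀ (by positivity), mul_one]
        exact hN'
    rw [e1, IsUltrametricDist.norm_add_eq_max_of_norm_ne_norm (by rw [e2]; exact e3.ne'), e2,
      max_eq_left e3.le]
  have htne : t ≠ ρ := by
    intro h
    rw [h, sub_self, norm_zero] at htρ
    have : 0 < ((p : ℝ) ^ N)⁻¹ := by positivity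
    linarith
  obtain ⟨y, hy⟩ := IsAlgClosed.exists_pow_nat_eq (Polynomial.aeval t (FL x f)) two_pos
  -- its square root
  set e : ℤ := (μ : ℤ) * N + b0.valuation with he
  have hny : (p : ℝ) ^ e.toNat * ‖ι y‖ ^ 2 = 1 := by
    have h1 : ‖ι y‖ ^ 2 = ((p : ℝ) ^ N)⁻¹ ^ μ * (p : ℝ) ^ (-b0.valuation) := by
      rw [← norm_pow, ← map_pow, hy, hfac, map_mul, map_pow, map_sub, norm_mul, norm_pow, htρ,
        hnH t (by rw [htρ]; exact lt_of_lt_of_le hN1 (min_le_left _ _)), hnb0]
    have h2 : ((e.toNat : ℕ) : ℤ) = e := Int.toNat_of_nonneg hN3.le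
    rw [h1, ← zpow_natCast (p : ℝ) e.toNat, h2, inv_pow, ← pow_mul, ← zpow_natCast,
      ← zpow_neg, ← zpow_add₀ hp0.ne', ← zpow_add₀ hp0.ne']
    have h3 : e + (-((N * μ : ℕ) : ℤ) + -b0.valuation) = 0 := by
      rw [he]
      push_cast
      ring
    rw [h3, zpow_zero]
  have hyint : IsIntegral (Fld K x) y := Algebra.IsIntegral.isIntegral y
  set F1 : Fld K x := (FL x f).eval tL with hF1
  have hF1' : algebraMap (Fld K x) (AlgebraicClosure K) F1 = Polynomial.aeval t (FL x f) := by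
    rw [hF1, ht, Polynomial.aeval_algebraMap_apply]
    rfl
  set q : (Fld K x)[X] := X ^ 2 - C F1 with hq
  have hqm : q.Monic := monic_X_pow_sub_C F1 two_ne_zero
  have hqy : Polynomial.aeval y q = 0 := by
    rw [hq, map_sub, map_pow, aeval_X, aeval_C, hF1', hy, sub_self]
  have hrank : Module.finrank (Fld K x) (IntermediateField.adjoin (Fld K x) {y}) = 2 := by
    rw [IntermediateField.adjoin.finrank hyint]
    have hdvd : 2 ∣ (minpoly (Fld K x) y).natDegree := by
      refine dvd_natDegree (K := Fld K x) ι hιL (minpoly.monic hyint) (m := e.toNat) ?_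
        (fun r hr => ?_)
      · rw [Nat.coprime_two_right]
        have h2 : ((e.toNat : ℕ) : ℤ) = e := Int.toNat_of_nonneg hN3.le
        have h3 : Odd ((e.toNat : ℕ) : ℤ) := by rw [h2]; exact hN2
        exact_mod_cast h3
      · have h1 : Polynomial.aeval r q = 0 := by
          obtain ⟨q', hq'⟩ := minpoly.dvd _ _ hqy
          rw [hq', map_mul]
          have h2 : Polynomial.aeval r (minpoly (Fld K x) y) = 0 := by
            rw [IsRoot, eval_map] at hr
            exact hr
          rw [h2, zero_mul]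
        have h3 : r ^ 2 = y ^ 2 := by
          rw [hq, map_sub, map_pow, aeval_X, aeval_C, hF1'] at h1
          rw [hy]
          linear_combination h1
        have h4 : ‖ι r‖ ^ 2 = ‖ι y‖ ^ 2 := by
          rw [← norm_pow, ← norm_pow, ← map_pow, ← map_pow, h3]
        rw [h4]
        exact hny
    have hle : (minpoly (Fld K x) y).natDegree ≤ 2 := by
      have h := natDegree_le_of_dvd (minpoly.dvd _ _ hqy) hqm.ne_zero
      rwa [hq, natDegree_X_pow_sub_C] at h
    have hpos : 0 < (minpoly (Fld K x) y).natDegree := minpoly.natDegree_pos hyint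
    exact le_antisymm hle (Nat.le_of_dvd hpos hdvd)
  -- the new point
  set z := pt x t y with hz
  have hzf : Fld K z = (IntermediateField.adjoin (Fld K x) {y}).restrictScalars K := by
    have hα2 : (α : AlgebraicClosure K) ∈ Fld K z := by
      have h1 : t ∈ Fld K z := mem_Fld z (Sum.inr 0)
      have hpn : (p : AlgebraicClosure K) ≠ 0 := by exact_mod_cast hp.out.ne_zero
      have h2 : (α : AlgebraicClosure K) = (t - (a0 : AlgebraicClosure K) -
          (p : AlgebraicClosure K) ^ N) / (p : AlgebraicClosure K) ^ (N + N') := by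
        rw [eq_div_iff (pow_ne_zero _ hpn), ht, htL]
        simp only [map_add, map_mul, map_pow, map_natCast, map_ratCast]
        have e5 : algebraMap (Fld K x) (AlgebraicClosure K) α = (α : AlgebraicClosure K) := rfl
        rw [e5]
        ring
      rw [h2]
      have h3 : (a0 : AlgebraicClosure K) ∈ Fld K z := by
        have : (a0 : AlgebraicClosure K) = algebraMap K (AlgebraicClosure K) (a0 : K) := by
          rw [map_ratCast]
        rw [this]
        exact (Fld K z).algebraMap_mem _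
      have h4 : (p : AlgebraicClosure K) ∈ Fld K z := natCast_mem _ p
      exact div_mem (sub_mem (sub_mem h1 h3) (pow_mem h4 _)) (pow_mem h4 _)
    have hLz : Fld K x ≤ Fld K z := le_of_primitive hα hα2
    apply le_antisymm
    · rw [IntermediateField.adjoin_le_iff]
      rintro _ ⟨j, rfl⟩
      change z j ∈ IntermediateField.adjoin (Fld K x) {y}
      rcases j with j | j
      · exact (IntermediateField.adjoin (Fld K x) {y}).algebraMap_mem ⟨x (Sum.inl j), mem_Fld x _⟩
      · fin_cases j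
        · exact (IntermediateField.adjoin (Fld K x) {y}).algebraMap_mem tL
        · exact IntermediateField.mem_adjoin_simple_self _ y
    · intro c hc
      have h1 : IntermediateField.adjoin (Fld K x) {y} ≤ IntermediateField.extendScalars hLz := by
        rw [IntermediateField.adjoin_le_iff]
        rintro _ rfl
        exact (IntermediateField.mem_extendScalars hLz).2 (mem_Fld z (Sum.inr 1))
      exact (IntermediateField.mem_extendScalars hLz).1 (h1 hc)
  refine ⟨z, pt_mem hx hy, ptDeg_eq x z hzf hrank, ?_⟩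
  intro h0
  rw [hz, hab t y hy] at h0
  apply hNav t htne (by rw [htρ]; exact lt_of_lt_of_le hN1 (min_le_right _ _))
  have h1 : aΩ.eval t = Polynomial.aeval t a := eval_map_algebraMap _ _
  have h2 : bΩ.eval t = Polynomial.aeval t b := eval_map_algebraMap _ _
  have h3 : FΩ.eval t = y ^ 2 := by
    rw [hy]
    exact eval_map_algebraMap _ _
  rw [eval_sub, eval_mul, eval_pow, eval_pow, h1, h2, h3]
  have h4 : Polynomial.aeval t a = -(Polynomial.aeval t b * y) := by linear_combination h0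
  rw [h4]
  ring

end Pool.Agent.DDS
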